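import Mathlib

/-!
PROJECT PF, module PF-07. Mertens product, crude form.

`∏_{p ≤ y} (1 - 1/p) ≤ 1 / log y`: `∏_{p ≤ y} (1 - 1/p)⁻¹ = ∑ 1/n` over the `n` all of whose prime factors are `≤ y`, `≥ ∑_{n ≤ y} 1/n ≥ log y`
(Mathlib: `EulerProduct.prod_primesBelow_geometric_eq_tsum_smoothNumbers` / `EulerProduct.summable_and_hasSum_smoothNumbers_prod_primesBelow_geometric`, `Real.log_add_one_le_harmonic` / `log_le_harmonic_floor`).
`∏_{p ≤ G} (1 - 1/p) ≥ ∏_{2 ≤ n ≤ G} (1 - 1/n) = 1/G`. Divide.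
-/

set_option autoImplicit false

namespace Pool.Agent.Helper9.PF

open Finset

/-- the completely multiplicative function `n ↦ 1/n` -/
private noncomputable def invHomPB : ℕ →* ℝ where
  toFun n := (n : ℝ)⁻¹
  map_one' := by simp
  map_mul' m n := by push_cast; rw [mul_inv]

private theorem harm_le_prod_pb (n : ℕ) :
    ∑ i ∈ Icc 1 n, (i : ℝ)⁻¹ ≤ ∏ p ∈ (n + 1).primesBelow, (1 - (p : ℝ)⁻¹)⁻¹ := by
  have h := (EulerProduct.summable_and_hasSum_smoothNumbers_prod_primesBelow_geometric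
    (f := invHomPB) (by
      intro p hp
      show ‖(p : ℝ)⁻¹‖ < 1
      rw [norm_inv, Real.norm_natCast]
      exact inv_lt_one_of_one_lt₀ (by exact_mod_cast hp.one_lt)) (n + 1)).2
  have h2 := sum_le_hasSum ((Icc 1 n).subtype (· ∈ Nat.smoothNumbers (n + 1))) (fun i _ => by
    show 0 ≤ ((i : ℕ) : ℝ)⁻¹
    positivity) h
  refine le_trans (le_of_eq ?_) h2
  rw [Finset.sum_subtype_of_mem (p := (· ∈ Nat.smoothNumbers (n + 1)))
    (fun i => (invHomPB i : ℝ))]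
  · rfl
  · intro x hx
    rw [mem_Icc] at hx
    rw [Nat.mem_smoothNumbers']
    intro p hp hpx
    exact lt_of_le_of_lt (Nat.le_of_dvd (by omega) hpx) (by omega)

private theorem log_le_prod_pb (n : ℕ) :
    Real.log (n + 1) ≤ ∏ p ∈ (n + 1).primesBelow, (1 - (p : ℝ)⁻¹)⁻¹ := by
  have h := log_add_one_le_harmonic n
  rw [harmonic_eq_sum_Icc] at h
  push_cast at h
  exact h.trans (harm_le_prod_pb n)

private theorem inv_pos_pb {p : ℕ} (hp : 2 ≤ p) : 1 ≤ (1 - (p : ℝ)⁻¹)⁻¹ := by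
  have h2 : (2 : ℝ) ≤ p := by exact_mod_cast hp
  have h0 : (0 : ℝ) < (p : ℝ)⁻¹ := by positivity
  have h1 : (p : ℝ)⁻¹ ≤ 1 / 2 := by
    rw [inv_le_comm₀ (by linarith) (by norm_num)]
    simpa using h2
  rw [one_le_inv₀ (by linarith)]
  linarith

/-- `∏_{2 ≤ n ≤ G} (1 - 1/n)⁻¹ = G` -/
private theorem tele_pb (G : ℕ) (hG : 1 ≤ G) :
    ∏ n ∈ Ioc 1 G, (1 - (n : ℝ)⁻¹)⁻¹ = G := by
  induction G, hG using Nat.le_induction with
  | base => simp
  | succ k hk ih =>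
    rw [Finset.prod_Ioc_succ_top hk, ih]
    have hk0 : (0 : ℝ) < k := by exact_mod_cast hk
    have h1 : (1 - ((k + 1 : ℕ) : ℝ)⁻¹) = k / (k + 1) := by
      push_cast
      field_simp
      ring
    rw [h1, inv_div]
    push_cast
    field_simp

theorem prod_bound (G y : ℕ) (hG : 2 ≤ G) (hGy : G ≤ y) :
    ∏ p ∈ (Ioc G y).filter Nat.Prime, (1 - 1 / (p : ℝ)) ≤ (G : ℝ) / Real.log y := by
  have hy1 : (1 : ℝ) < y := by exact_mod_cast (by omega : 1 < y)
  have hlog : 0 < Real.log y := Real.log_pos hy1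
  have hlogy : Real.log y ≤ ∏ p ∈ (y + 1).primesBelow, (1 - (p : ℝ)⁻¹)⁻¹ := by
    refine le_trans ?_ (log_le_prod_pb y)
    exact Real.log_le_log (by linarith) (by linarith)
  have hsplit : (y + 1).primesBelow =
      (Ioc 1 G).filter Nat.Prime ∪ (Ioc G y).filter Nat.Prime := by
    ext p
    rw [Nat.mem_primesBelow, mem_union, mem_filter, mem_filter, mem_Ioc, mem_Ioc]
    constructor
    · rintro ⟨h1, h2⟩
      have := h2.two_le
      by_cases h3 : p ≤ G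
      · exact Or.inl ⟨⟨by omega, h3⟩, h2⟩
      · exact Or.inr ⟨⟨by omega, by omega⟩, h2⟩
    · rintro (⟨⟨h1, h2⟩, h3⟩ | ⟨⟨h1, h2⟩, h3⟩)
      · exact ⟨by omega, h3⟩
      · exact ⟨by omega, h3⟩
  have hdisj : Disjoint ((Ioc 1 G).filter Nat.Prime) ((Ioc G y).filter Nat.Prime) := by
    rw [Finset.disjoint_left]
    intro p h1 h2
    rw [mem_filter, mem_Ioc] at h1 h2
    omega
  rw [hsplit, Finset.prod_union hdisj] at hlogy
  have hle : ∏ p ∈ (Ioc 1 G).filter Nat.Prime, (1 - (p : ℝ)⁻¹)⁻¹ ≤ G := by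
    rw [← tele_pb G (by omega)]
    refine Finset.prod_le_prod_of_subset_of_one_le (Finset.filter_subset _ _) ?_ ?_
    · intro p hp
      rw [mem_filter] at hp
      exact le_trans zero_le_one (inv_pos_pb hp.2.two_le)
    · intro p hp _
      rw [mem_Ioc] at hp
      exact inv_pos_pb hp.1
  have hpos : 0 < ∏ p ∈ (Ioc G y).filter Nat.Prime, (1 - 1 / (p : ℝ)) := by
    refine Finset.prod_pos fun p hp => ?_
    rw [mem_filter] at hp
    have h2 : (2 : ℝ) ≤ p := by exact_mod_cast hp.2.two_le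
    have h1 : 1 / (p : ℝ) ≤ 1 / 2 := one_div_le_one_div_of_le (by norm_num) h2
    linarith
  have hinv : ∏ p ∈ (Ioc G y).filter Nat.Prime, (1 - (p : ℝ)⁻¹)⁻¹ =
      (∏ p ∈ (Ioc G y).filter Nat.Prime, (1 - 1 / (p : ℝ)))⁻¹ := by
    rw [← Finset.prod_inv_distrib]
    exact Finset.prod_congr rfl fun p _ => by rw [one_div]
  rw [hinv] at hlogy
  rw [le_div_iff₀ hlog]
  have h3 : Real.log y ≤ G * (∏ p ∈ (Ioc G y).filter Nat.Prime, (1 - 1 / (p : ℝ)))⁻¹ :=
    hlogy.trans (mul_le_mul_of_nonneg_right hle (inv_nonneg.2 hpos.le))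
  calc (∏ p ∈ (Ioc G y).filter Nat.Prime, (1 - 1 / (p : ℝ))) * Real.log y
      ≤ (∏ p ∈ (Ioc G y).filter Nat.Prime, (1 - 1 / (p : ℝ))) *
        (G * (∏ p ∈ (Ioc G y).filter Nat.Prime, (1 - 1 / (p : ℝ)))⁻¹) :=
        mul_le_mul_of_nonneg_left h3 hpos.le
    _ = G := by
      rw [mul_comm (G : ℝ), ← mul_assoc, mul_inv_cancel₀ hpos.ne', one_mul]

end Pool.Agent.Helper9.PF
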