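import Mathlib

/-!
PROJECT PF, module PF-03. Exponential moment of the number of prime factors in an arithmetic progression.

`moment`. Let `t = r + Q n`, `Y ≤ n < 2 Y`; then `1 ≤ t ≤ Y^2`. Let `P` be the set of the primes `p ∣ t`, `¬ p ∣ Q`. For `U ⊆ P` put `e_U = ∏ p ∈ U, p`: it is a divisor of `t` coprime to `Q`,
`U ↦ e_U` is injective (`Nat.primeFactors_prod`), and `e_U * e_(P \ U) = ∏ p ∈ P, p ≤ t ≤ Y^2`, so `e_U ≤ Y` or `e_(P \ U) ≤ Y`. Hence
`2 ^ |P| ≤ 2 * #{e ∈ Icc 1 Y : e ∣ t, Coprime e Q}` (the subsets `U` with `e_U ≤ Y` and their complements cover the powerset).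
Summing over `n` and interchanging: for `e ≤ Y` coprime to `Q`, `#{n ∈ Ico Y (2 Y) : e ∣ r + Q n} ≤ Y / e + 1 ≤ 2 Y / e` (one residue class modulo `e`; e.g. `Nat.Ico_filter_modEq_card` /
`Int.Ico_filter_modEq_card` or `Nat.count_modEq_card`), and `∑_{e ≤ Y} 1/e ≤ 1 + log Y` (`harmonic_le_one_add_log`).

`exists_good`. For `i ≤ V` the number of `n` with more than `B₀` such primes of `a + Q n + i` is at most `4 Y (1 + log Y) / 2 ^ (B₀ + 1)` by `moment` (`r = a + i`, Markov). The sum over `i ≤ V` is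
`< Y`, the number of all `n`.
-/

set_option autoImplicit false

namespace Pool.Agent.Helper9.PF

open Finset

private theorem pow_le_card (Q Y t : ℕ) (ht0 : 0 < t) (ht : t ≤ Y ^ 2) :
    2 ^ (t.primeFactors.filter (fun p => ¬ p ∣ Q)).card ≤
      2 * ((Icc 1 Y).filter (fun e => e ∣ t ∧ Nat.Coprime e Q)).card := by
  obtain ⟨P, hP⟩ : ∃ P, P = t.primeFactors.filter (fun p => ¬ p ∣ Q) := ⟨_, rfl⟩
  rw [← hP]
  have hPp : ∀ p ∈ P, p.Prime := by
    intro p hp
    rw [hP, mem_filter] at hp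
    exact Nat.prime_of_mem_primeFactors hp.1
  have hPt : ∏ p ∈ P, p ∣ t := by
    refine dvd_trans (prod_dvd_prod_of_subset _ _ _ ?_) (Nat.prod_primeFactors_dvd t)
    rw [hP]
    exact filter_subset _ _
  have hPQ : ∀ p ∈ P, Nat.Coprime p Q := by
    intro p hp
    have h1 := hPp p hp
    rw [hP, mem_filter] at hp
    exact (Nat.Prime.coprime_iff_not_dvd h1).2 hp.2
  obtain ⟨S, hS⟩ : ∃ S, S = P.powerset.filter (fun U => ∏ p ∈ U, p ≤ Y) := ⟨_, rfl⟩
  have hcover : P.powerset ⊆ S ∪ P.powerset.filter (fun U => ∏ p ∈ P \ U, p ≤ Y) := by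
    intro U hU
    rw [mem_powerset] at hU
    rw [mem_union, hS, mem_filter, mem_filter, mem_powerset]
    by_contra hc
    push Not at hc
    have h1 := hc.1 hU
    have h2 := hc.2 hU
    have h3 := prod_sdiff (f := fun p : ℕ => p) hU
    have h4 : ∏ p ∈ P, p ≤ t := Nat.le_of_dvd ht0 hPt
    have h5 : Y * Y < (∏ p ∈ P \ U, p) * ∏ p ∈ U, p := Nat.mul_lt_mul'' h2 h1
    rw [h3] at h5
    rw [sq] at ht
    omega
  have hcompl : (P.powerset.filter (fun U => ∏ p ∈ P \ U, p ≤ Y)).card ≤ S.card := by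
    refine card_le_card_of_injOn (fun U => P \ U) ?_ ?_
    · intro U hU
      rw [mem_coe, mem_filter] at hU
      rw [mem_coe, hS, mem_filter, mem_powerset]
      exact ⟨sdiff_subset, hU.2⟩
    · intro U hU U' hU' h
      rw [mem_coe, mem_filter, mem_powerset] at hU hU'
      have h1 : P \ (P \ U) = P \ (P \ U') := by
        simp only at h
        rw [h]
      rwa [Finset.sdiff_sdiff_eq_self hU.1, Finset.sdiff_sdiff_eq_self hU'.1] at h1
  have hS2 : S.card ≤ ((Icc 1 Y).filter (fun e => e ∣ t ∧ Nat.Coprime e Q)).card := by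
    refine card_le_card_of_injOn (fun U => ∏ p ∈ U, p) ?_ ?_
    · intro U hU
      rw [mem_coe, hS, mem_filter, mem_powerset] at hU
      have h1 : ∏ p ∈ U, p ∣ t := (prod_dvd_prod_of_subset _ _ _ hU.1).trans hPt
      rw [mem_coe, mem_filter, mem_Icc]
      refine ⟨⟨Nat.pos_of_dvd_of_pos h1 ht0, hU.2⟩, h1, ?_⟩
      exact Nat.Coprime.prod_left fun p hp => hPQ p (hU.1 hp)
    · intro U hU U' hU' h
      rw [mem_coe, hS, mem_filter, mem_powerset] at hU hU'
      have h1 := Nat.primeFactors_prod fun p hp => hPp p (hU.1 hp)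
      have h2 := Nat.primeFactors_prod fun p hp => hPp p (hU'.1 hp)
      simp only at h
      rw [← h1, ← h2, h]
  have h1 : 2 ^ P.card = P.powerset.card := (card_powerset P).symm
  have h2 := (card_le_card hcover).trans (card_union_le _ _)
  omega

private theorem count_le (Q Y r e : ℕ) (hcop : Nat.Coprime e Q) :
    ((Ico Y (2 * Y)).filter (fun n => e ∣ r + Q * n)).card ≤ Y / e + 1 := by
  rw [← card_range (Y / e + 1)]
  refine card_le_card_of_injOn (fun n => (n - Y) / e) ?_ ?_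
  · intro n hn
    rw [mem_coe, mem_filter, mem_Ico] at hn
    rw [mem_coe, mem_range, Nat.lt_succ_iff]
    exact Nat.div_le_div_right (by omega)
  · intro n hn n' hn' h
    rw [mem_coe, mem_filter, mem_Ico] at hn hn'
    have h1 : Q * n ≡ Q * n' [MOD e] := by
      have h2 : r + Q * n ≡ r + Q * n' [MOD e] :=
        ((Nat.modEq_zero_iff_dvd).2 hn.2).trans ((Nat.modEq_zero_iff_dvd).2 hn'.2).symm
      exact Nat.ModEq.add_left_cancel' r h2
    have h3 : n ≡ n' [MOD e] := Nat.ModEq.cancel_left_of_coprime hcop h1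
    have h4 : n - Y ≡ n' - Y [MOD e] := by
      refine Nat.ModEq.add_right_cancel' Y ?_
      rw [Nat.sub_add_cancel hn.1.1, Nat.sub_add_cancel hn'.1.1]
      exact h3
    simp only at h
    have h5 := Nat.div_add_mod (n - Y) e
    have h6 := Nat.div_add_mod (n' - Y) e
    have h7 : (n - Y) % e = (n' - Y) % e := h4
    rw [h, h7] at h5
    omega

theorem moment (Q Y r : ℕ) (hQ : 0 < Q) (hY : 1 ≤ Y) (hr : r + Q * (2 * Y) ≤ Y ^ 2) :
    ∑ n ∈ Ico Y (2 * Y), (2 : ℝ) ^ ((r + Q * n).primeFactors.filter (fun p => ¬ p ∣ Q)).card ≤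
      4 * Y * (1 + Real.log Y) := by
  have hY0 : (0 : ℝ) < Y := by exact_mod_cast hY
  have h1 : ∀ n ∈ Ico Y (2 * Y),
      (2 : ℝ) ^ ((r + Q * n).primeFactors.filter (fun p => ¬ p ∣ Q)).card ≤
      2 * ∑ e ∈ (Icc 1 Y).filter (fun e => Nat.Coprime e Q), if e ∣ r + Q * n then (1 : ℝ) else 0 := by
    intro n hn
    rw [mem_Ico] at hn
    have ht0 : 0 < r + Q * n := by
      have : 0 < Q * n := Nat.mul_pos hQ (by omega)
      omega
    have ht : r + Q * n ≤ Y ^ 2 := by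
      refine le_trans ?_ hr
      have : Q * n ≤ Q * (2 * Y) := Nat.mul_le_mul_left Q (by omega)
      omega
    have h2 := pow_le_card Q Y _ ht0 ht
    have h3 : ∑ e ∈ (Icc 1 Y).filter (fun e => Nat.Coprime e Q),
        (if e ∣ r + Q * n then (1 : ℝ) else 0) =
        (((Icc 1 Y).filter (fun e => e ∣ r + Q * n ∧ Nat.Coprime e Q)).card : ℝ) := by
      rw [sum_boole, filter_filter, filter_congr fun e _ => and_comm]
    rw [h3]
    exact_mod_cast h2
  calc ∑ n ∈ Ico Y (2 * Y), (2 : ℝ) ^ ((r + Q * n).primeFactors.filter (fun p => ¬ p ∣ Q)).card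
      ≤ ∑ n ∈ Ico Y (2 * Y), 2 * ∑ e ∈ (Icc 1 Y).filter (fun e => Nat.Coprime e Q),
          (if e ∣ r + Q * n then (1 : ℝ) else 0) := sum_le_sum h1
    _ = 2 * ∑ e ∈ (Icc 1 Y).filter (fun e => Nat.Coprime e Q),
          ∑ n ∈ Ico Y (2 * Y), (if e ∣ r + Q * n then (1 : ℝ) else 0) := by
        rw [← mul_sum, sum_comm]
    _ ≤ 2 * ∑ e ∈ (Icc 1 Y).filter (fun e => Nat.Coprime e Q), 2 * Y * ((e : ℝ))⁻¹ := by
        refine mul_le_mul_of_nonneg_left (sum_le_sum fun e he => ?_) (by norm_num)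
        rw [mem_filter, mem_Icc] at he
        have he0 : 0 < e := he.1.1
        have he0' : (0 : ℝ) < e := by exact_mod_cast he0
        have h4 := count_le Q Y r e he.2
        have h5 : (((Ico Y (2 * Y)).filter (fun n => e ∣ r + Q * n)).card : ℝ) ≤
            ((Y / e : ℕ) : ℝ) + 1 := by exact_mod_cast h4
        have h6 : ((Y / e : ℕ) : ℝ) ≤ Y / e := Nat.cast_div_le
        have h7 : (1 : ℝ) ≤ Y / e := by
          rw [one_le_div he0']
          exact_mod_cast he.1.2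
        rw [sum_boole]
        have h8 : 2 * (Y : ℝ) * ((e : ℝ))⁻¹ = Y / e + Y / e := by
          rw [div_eq_mul_inv]
          ring
        rw [h8]
        linarith
    _ ≤ 2 * ∑ e ∈ Icc 1 Y, 2 * Y * ((e : ℝ))⁻¹ := by
        refine mul_le_mul_of_nonneg_left ?_ (by norm_num)
        exact sum_le_sum_of_subset_of_nonneg (filter_subset _ _) fun e _ _ => by positivity
    _ = 4 * Y * ∑ e ∈ Icc 1 Y, ((e : ℝ))⁻¹ := by
        rw [← mul_sum]
        ring
    _ ≤ 4 * Y * (1 + Real.log Y) := by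
        refine mul_le_mul_of_nonneg_left ?_ (by positivity)
        have h9 := harmonic_le_one_add_log Y
        rw [harmonic_eq_sum_Icc] at h9
        push_cast at h9
        exact h9

theorem exists_good (Q Y a V B₀ : ℕ) (hQ : 0 < Q) (hY : 1 ≤ Y) (hr : a + V + Q * (2 * Y) ≤ Y ^ 2)
    (hB : 4 * ((V : ℝ) + 1) * (1 + Real.log Y) < 2 ^ (B₀ + 1)) :
    ∃ n ∈ Ico Y (2 * Y), ∀ i ≤ V,
      ((a + Q * n + i).primeFactors.filter (fun p => ¬ p ∣ Q)).card ≤ B₀ := by
  by_contra hcon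
  push Not at hcon
  have hY0 : (0 : ℝ) < Y := by exact_mod_cast hY
  have h1 : ∀ n ∈ Ico Y (2 * Y), (2 : ℝ) ^ (B₀ + 1) ≤ ∑ i ∈ range (V + 1),
      (2 : ℝ) ^ ((a + i + Q * n).primeFactors.filter (fun p => ¬ p ∣ Q)).card := by
    intro n hn
    obtain ⟨i, hi, hi2⟩ := hcon n hn
    have h2 : a + Q * n + i = a + i + Q * n := by ring
    rw [h2] at hi2
    refine le_trans (pow_le_pow_right₀ (by norm_num) hi2) ?_
    exact single_le_sum (f := fun i => (2 : ℝ) ^
      ((a + i + Q * n).primeFactors.filter (fun p => ¬ p ∣ Q)).card)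
      (fun j _ => by positivity) (mem_range.2 (Nat.lt_succ_of_le hi))
  have h3 := sum_le_sum h1
  rw [sum_const, Nat.card_Ico, sum_comm, nsmul_eq_mul] at h3
  have h4 : ∑ i ∈ range (V + 1), ∑ n ∈ Ico Y (2 * Y),
      (2 : ℝ) ^ ((a + i + Q * n).primeFactors.filter (fun p => ¬ p ∣ Q)).card ≤
      ∑ _i ∈ range (V + 1), 4 * Y * (1 + Real.log Y) := by
    refine sum_le_sum fun i hi => moment Q Y (a + i) hQ hY ?_
    rw [mem_range] at hi
    omega
  rw [sum_const, card_range, nsmul_eq_mul] at h4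
  have h5 : ((2 * Y - Y : ℕ) : ℝ) = Y := by
    have : 2 * Y - Y = Y := by omega
    rw [this]
  rw [h5] at h3
  have h6 : (Y : ℝ) * (4 * ((V : ℝ) + 1) * (1 + Real.log Y)) < Y * 2 ^ (B₀ + 1) :=
    mul_lt_mul_of_pos_left hB hY0
  push_cast at h4
  have h7 : ((V : ℝ) + 1) * (4 * Y * (1 + Real.log Y)) =
      (Y : ℝ) * (4 * ((V : ℝ) + 1) * (1 + Real.log Y)) := by ring
  linarith

end Pool.Agent.Helper9.PF
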