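import Mathlib

/-!
PROJECT PF, module PF-05. The number of `n` modulo `Q` with `gcd (n + j gcd (n, Q), Q) = gcd (n, Q)`.

Induction over `S`, for all `j` at the same time. Let `S = insert p S'`, `Q' = ∏ S'`, `Q = p Q'`, `p` prime, coprime to `Q'`, `p ∤ j`. Numbers `n < Q` correspond to pairs `(n mod Q', n mod p)`
(Chinese remainder theorem). Let `d' = gcd (n, Q')`.
* If `p ∣ n`: `gcd (n, Q) = p d'`, and the condition is `gcd (n + (j p) d', Q') = d'` (modulo `p` it is automatic). So the number of such `n` is the count for `(S', j p)`, and no prime of `S'` divides `j p`.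
* If `p ∤ n`: `gcd (n, Q) = d'`, and the condition is `gcd (n + j d', Q') = d'` and `p ∤ n + j d'`. For every `n mod Q'` there are `p - 2` classes modulo `p` (`n ≠ 0` and `n ≠ - j d'`, which is not `0`).
Total `∏_{S'} (q - 1) * (1 + (p - 2))`.
-/

set_option autoImplicit false

namespace Pool.Agent.Helper9.PF

open Finset

private theorem sm_gcd_mod (n Q k : ℕ) : (n % Q + k).gcd Q = (n + k).gcd Q := by
  have h1 : n % Q + k ≡ n + k [MOD Q] := (Nat.mod_modEq n Q).add_right k
  exact h1.gcd_eq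

private theorem sm_gm (n Q : ℕ) : (n % Q).gcd Q = n.gcd Q := (Nat.mod_modEq n Q).gcd_eq

private theorem sm_inj {p Q n n' : ℕ} (hc : Nat.Coprime p Q) (hn : n < p * Q) (hn' : n' < p * Q)
    (h1 : n % p = n' % p) (h2 : n % Q = n' % Q) : n = n' := by
  have h3 : n ≡ n' [MOD p * Q] := (Nat.modEq_and_modEq_iff_modEq_mul hc).1 ⟨h1, h2⟩
  exact Nat.ModEq.eq_of_lt_of_lt h3 hn hn'

private theorem sm_div {p Q n j : ℕ} (hp : p.Prime) (hc : Nat.Coprime p Q) (hpn : p ∣ n)
    (h : (n + j * n.gcd (p * Q)).gcd (p * Q) = n.gcd (p * Q)) :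
    (n + j * p * n.gcd Q).gcd Q = n.gcd Q := by
  have h1 : n.gcd (p * Q) = p * n.gcd Q := by
    rw [Nat.Coprime.gcd_mul n hc, Nat.gcd_eq_right hpn]
  rw [h1] at h
  have h2 : p ∣ n + j * (p * n.gcd Q) := by
    refine dvd_add hpn ?_
    exact Dvd.intro (j * n.gcd Q) (by ring)
  rw [Nat.Coprime.gcd_mul _ hc, Nat.gcd_eq_right h2] at h
  have h3 := Nat.eq_of_mul_eq_mul_left hp.pos h
  rw [mul_assoc]
  exact h3

private theorem sm_ndiv {p Q n j : ℕ} (hp : p.Prime) (hc : Nat.Coprime p Q) (hQ : 0 < Q) (hpn : ¬ p ∣ n)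
    (h : (n + j * n.gcd (p * Q)).gcd (p * Q) = n.gcd (p * Q)) :
    (n + j * n.gcd Q).gcd Q = n.gcd Q ∧ ¬ p ∣ n + j * n.gcd Q := by
  have hcn : n.gcd p = 1 := ((Nat.Prime.coprime_iff_not_dvd hp).2 hpn).symm
  have h1 : n.gcd (p * Q) = n.gcd Q := by
    rw [Nat.Coprime.gcd_mul n hc, hcn, one_mul]
  rw [h1, Nat.Coprime.gcd_mul _ hc] at h
  have hd0 : 0 < n.gcd Q := Nat.gcd_pos_of_pos_right _ hQ
  have h2 : n.gcd Q ∣ (n + j * n.gcd Q).gcd Q :=
    Nat.dvd_gcd (dvd_add (Nat.gcd_dvd_left _ _) (Dvd.intro_left _ rfl)) (Nat.gcd_dvd_right _ _)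
  have h3 : (n + j * n.gcd Q).gcd Q ∣ n.gcd Q := Dvd.intro_left _ h
  have h4 : (n + j * n.gcd Q).gcd Q = n.gcd Q := Nat.dvd_antisymm h3 h2
  rw [h4] at h
  refine ⟨h4, fun h5 => ?_⟩
  rw [Nat.gcd_eq_right h5] at h
  have h6 : p * n.gcd Q = 1 * n.gcd Q := by rw [h, one_mul]
  have h7 := Nat.eq_of_mul_eq_mul_right hd0 h6
  exact hp.one_lt.ne' h7

theorem card_same (S : Finset ℕ) (hS : ∀ p ∈ S, p.Prime) (j : ℕ) (hj : ∀ p ∈ S, ¬ p ∣ j) :
    ((range (∏ p ∈ S, p)).filter (fun n => (n + j * n.gcd (∏ p ∈ S, p)).gcd (∏ p ∈ S, p) =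
      n.gcd (∏ p ∈ S, p))).card ≤ ∏ p ∈ S, (p - 1) := by
  classical
  induction S using Finset.induction_on generalizing j with
  | empty => simp
  | insert p S hpS ih =>
    have hp : p.Prime := hS p (Finset.mem_insert_self _ _)
    have hS' : ∀ q ∈ S, q.Prime := fun q hq => hS q (Finset.mem_insert_of_mem hq)
    have hpj : ¬ p ∣ j := hj p (Finset.mem_insert_self _ _)
    rw [Finset.prod_insert hpS, Finset.prod_insert hpS]
    set Q := ∏ q ∈ S, q with hQ
    have hQ0 : 0 < Q := Finset.prod_pos fun q hq => (hS' q hq).pos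
    have hc : Nat.Coprime p Q := by
      rw [hQ]
      refine Nat.Coprime.prod_right fun q hq => ?_
      refine (Nat.coprime_primes hp (hS' q hq)).2 ?_
      rintro rfl
      exact hpS hq
    have ih1 := ih hS' (j * p) (by
      intro q hq hd
      rcases (Nat.Prime.dvd_mul (hS' q hq)).1 hd with h | h
      · exact hj q (Finset.mem_insert_of_mem hq) h
      · have h1 := (Nat.prime_dvd_prime_iff_eq (hS' q hq) hp).1 h
        rw [h1] at hq
        exact hpS hq)
    have ih2 := ih hS' j (fun q hq => hj q (Finset.mem_insert_of_mem hq))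
    set F := (range (p * Q)).filter (fun n => (n + j * n.gcd (p * Q)).gcd (p * Q) = n.gcd (p * Q)) with hF
    have hsplit : F.card = (F.filter (fun n => p ∣ n)).card + (F.filter (fun n => ¬ p ∣ n)).card :=
      (Finset.card_filter_add_card_filter_not _).symm
    have h1 : (F.filter (fun n => p ∣ n)).card ≤ ∏ q ∈ S, (q - 1) := by
      refine le_trans (Finset.card_le_card_of_injOn (fun n => n % Q) ?_ ?_) ih1
      · intro n hn
        have hn1 := Finset.mem_filter.1 (Finset.mem_coe.1 hn)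
        have hn2 := Finset.mem_filter.1 hn1.1
        have h3 := sm_div hp hc hn1.2 hn2.2
        simp only [Finset.coe_filter, Set.mem_ofPred_eq, Finset.mem_range]
        refine ⟨Nat.mod_lt _ hQ0, ?_⟩
        rw [sm_gcd_mod, sm_gm]
        exact h3
      · intro n hn n' hn' he
        have hn1 := Finset.mem_filter.1 (Finset.mem_coe.1 hn)
        have hn2 := Finset.mem_filter.1 hn1.1
        have hn1' := Finset.mem_filter.1 (Finset.mem_coe.1 hn')
        have hn2' := Finset.mem_filter.1 hn1'.1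
        refine sm_inj hc (Finset.mem_range.1 hn2.1) (Finset.mem_range.1 hn2'.1) ?_ he
        rw [Nat.mod_eq_zero_of_dvd hn1.2, Nat.mod_eq_zero_of_dvd hn1'.2]
    have h2 : (F.filter (fun n => ¬ p ∣ n)).card ≤ (∏ q ∈ S, (q - 1)) * (p - 2) := by
      set T := (range Q).filter (fun n => (n + j * n.gcd Q).gcd Q = n.gcd Q) with hT
      have hmaps : ∀ n ∈ F.filter (fun n => ¬ p ∣ n), n % Q ∈ T := by
        intro n hn
        have hn1 := Finset.mem_filter.1 hn
        have hn2 := Finset.mem_filter.1 hn1.1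
        have h3 := (sm_ndiv hp hc hQ0 hn1.2 hn2.2).1
        refine Finset.mem_filter.2 ⟨Finset.mem_range.2 (Nat.mod_lt _ hQ0), ?_⟩
        rw [sm_gcd_mod, sm_gm]
        exact h3
      rw [Finset.card_eq_sum_card_fiberwise hmaps]
      refine (Finset.sum_le_card_nsmul _ _ (p - 2) ?_).trans ?_
      · intro m hm
        have hcm : ¬ p ∣ j * m.gcd Q := by
          intro h3
          rcases (Nat.Prime.dvd_mul hp).1 h3 with h4 | h4
          · exact hpj h4
          · have h5 : p ∣ Q := h4.trans (Nat.gcd_dvd_right _ _)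
            have h6 : p ∣ p.gcd Q := Nat.dvd_gcd dvd_rfl h5
            rw [hc] at h6
            exact hp.one_lt.ne' (Nat.dvd_one.1 h6)
        have hr0 : 0 < (j * m.gcd Q) % p := Nat.pos_of_ne_zero fun h3 => hcm (Nat.dvd_of_mod_eq_zero h3)
        have hrp : (j * m.gcd Q) % p < p := Nat.mod_lt _ hp.pos
        set c := p - (j * m.gcd Q) % p with hc'
        have hcard : (((range p).erase 0).erase c).card = p - 2 := by
          rw [Finset.card_erase_of_mem, Finset.card_erase_of_mem, Finset.card_range]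
          · rfl
          · exact Finset.mem_range.2 hp.pos
          · refine Finset.mem_erase.2 ⟨by omega, Finset.mem_range.2 (by omega)⟩
        rw [← hcard]
        refine Finset.card_le_card_of_injOn (fun n => n % p) ?_ ?_
        · intro n hn
          have hn0 := Finset.mem_filter.1 (Finset.mem_coe.1 hn)
          have hn1 := Finset.mem_filter.1 hn0.1
          have hn2 := Finset.mem_filter.1 hn1.1
          have h3 := (sm_ndiv hp hc hQ0 hn1.2 hn2.2).2
          have hg : m.gcd Q = n.gcd Q := by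
            rw [← hn0.2, sm_gm]
          refine Finset.mem_coe.2 (Finset.mem_erase.2 ⟨?_, Finset.mem_erase.2 ⟨?_, Finset.mem_range.2 (Nat.mod_lt _ hp.pos)⟩⟩)
          · intro h4
            apply h3
            apply Nat.dvd_of_mod_eq_zero
            have h4' : n % p = c := h4
            rw [Nat.add_mod, h4', ← hg, hc', Nat.sub_add_cancel hrp.le, Nat.mod_self]
          · intro h4
            exact hn1.2 (Nat.dvd_of_mod_eq_zero h4)
        · intro n hn n' hn' he
          have hn0 := Finset.mem_filter.1 (Finset.mem_coe.1 hn)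
          have hn1 := Finset.mem_filter.1 hn0.1
          have hn2 := Finset.mem_filter.1 hn1.1
          have hn0' := Finset.mem_filter.1 (Finset.mem_coe.1 hn')
          have hn1' := Finset.mem_filter.1 hn0'.1
          have hn2' := Finset.mem_filter.1 hn1'.1
          exact sm_inj hc (Finset.mem_range.1 hn2.1) (Finset.mem_range.1 hn2'.1) he (hn0.2.trans hn0'.2.symm)
      · rw [smul_eq_mul]
        exact Nat.mul_le_mul_right _ ih2
    rw [hsplit]
    have hp2 := hp.two_le
    calc _ ≤ (∏ q ∈ S, (q - 1)) + (∏ q ∈ S, (q - 1)) * (p - 2) := add_le_add h1 h2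
      _ = (∏ q ∈ S, (q - 1)) * (1 + (p - 2)) := by ring
      _ = (p - 1) * ∏ q ∈ S, (q - 1) := by
        rw [mul_comm, show 1 + (p - 2) = p - 1 by omega]

end Pool.Agent.Helper9.PF
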