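import Pool.Agent.Helper9.PF.GcdLarge
import Pool.Agent.Helper9.PF.ProdBound
import Pool.Agent.Helper9.PF.Same

/-!
PROJECT PF, module PF-08. A residue `a` with few bad places.

Let `Q = QQ G y`. The predicates `P1 n : D < gcd (n, Q)` and `P2 n : ∃ j ∈ [1, G], gcd (n + j gcd (n, Q), Q) = gcd (n, Q)` have period `Q`, so for fixed `i`
`#{a < Q : P (a + i)} = #{n < Q : P n}` (`Nat.filter_Ico_card_eq_of_periodic`, `Nat.count_eq_card_filter_range`). By `gcd_large` and `hD` the first is `≤ Q / 64`; by `card_same` (the primes of `(G, y]` do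
not divide `j ≤ G`), the second is `≤ G ∏ (p - 1) = G Q ∏ (1 - 1/p) ≤ G Q G / log y ≤ Q / 64` (`prod_bound`, `hy`). There are at most `G D ≤ W / 64` places `i` of the window with `E + W < i + G D`.
So `∑_{a < Q} |Bad a| ≤ Q (3 W / 64) ≤ Q W / 16` and some `a < Q` has `16 |Bad a| ≤ W`.
-/

set_option autoImplicit false

namespace Pool.Agent.Helper9.PF

open Finset

private theorem ea_per (Q : ℕ) (P : ℕ → Prop) [DecidablePred P]
    (hP : ∀ n, P (n + Q) ↔ P n) (i : ℕ) :
    ((range Q).filter (fun a => P (a + i))).card = ((range Q).filter P).card := by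
  have h1 : ((range Q).filter (fun a => P (a + i))).card = ((Ico i (i + Q)).filter P).card := by
    refine Finset.card_bij (fun a _ => a + i) ?_ ?_ ?_
    · intro a ha
      rw [mem_filter, mem_range] at ha
      rw [mem_filter, mem_Ico]
      exact ⟨⟨by omega, by omega⟩, ha.2⟩
    · intro a _ b _ h
      exact Nat.add_right_cancel h
    · intro b hb
      rw [mem_filter, mem_Ico] at hb
      refine ⟨b - i, ?_, by omega⟩
      rw [mem_filter, mem_range]
      refine ⟨by omega, ?_⟩
      rw [Nat.sub_add_cancel hb.1.1]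
      exact hb.2
  have hper : Function.Periodic P Q := fun n => propext (hP n)
  rw [h1, Nat.filter_Ico_card_eq_of_periodic i Q P hper, Nat.count_eq_card_filter_range]

private theorem ea_sum (Q : ℕ) (I : Finset ℕ) (P : ℕ → Prop) [DecidablePred P]
    (hP : ∀ n, P (n + Q) ↔ P n) :
    ∑ a ∈ range Q, (I.filter (fun i => P (a + i))).card =
      I.card * ((range Q).filter P).card := by
  have h1 : ∀ a, (I.filter (fun i => P (a + i))).card = ∑ i ∈ I, if P (a + i) then 1 else 0 :=
    fun a => Finset.card_filter _ _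
  simp only [h1]
  rw [Finset.sum_comm]
  have h2 : ∀ i ∈ I, ∑ a ∈ range Q, (if P (a + i) then 1 else 0) =
      ((range Q).filter P).card := by
    intro i _
    rw [← ea_per Q P hP i, Finset.card_filter]
  rw [Finset.sum_congr rfl h2, Finset.sum_const, smul_eq_mul]

private theorem ea_gcd (n Q : ℕ) : (n + Q).gcd Q = n.gcd Q := by
  simp

theorem exists_a (G y D W E : ℕ) (hG : 2 ≤ G) (hGy : G ≤ y) (hy : 64 * (G : ℝ) ^ 2 ≤ Real.log y)
    (hD1 : 2 ≤ D) (hD : 64 * (Real.log y * (1 + Real.log y)) ≤ Real.log D)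
    (hW : 64 * (G * D) ≤ W) :
    ∃ a, 16 * (Bad (QQ G y) D G E W a).card ≤ W := by
  classical
  have hprime : ∀ p ∈ (Ioc G y).filter Nat.Prime, p.Prime := fun p hp => (mem_filter.1 hp).2
  have hQpos : 0 < QQ G y := Finset.prod_pos fun p hp => (hprime p hp).pos
  obtain ⟨Q, hQ⟩ : ∃ Q, Q = QQ G y := ⟨_, rfl⟩
  rw [← hQ] at hQpos ⊢
  have hly : 0 < Real.log y := by
    have h1 : (0 : ℝ) < 64 * (G : ℝ) ^ 2 := by positivity
    linarith
  have hL : 0 < Real.log y * (1 + Real.log y) := by positivity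
  -- P1
  let P1 : ℕ → Prop := fun n => D < n.gcd Q
  let P2 : ℕ → Prop := fun n => ∃ j, 1 ≤ j ∧ j ≤ G ∧ (n + j * n.gcd Q).gcd Q = n.gcd Q
  have hP1 : ∀ n, P1 (n + Q) ↔ P1 n := fun n => by
    simp only [P1]
    rw [ea_gcd]
  have hP2 : ∀ n, P2 (n + Q) ↔ P2 n := fun n => by
    simp only [P2]
    rw [ea_gcd]
    have h1 : ∀ j, (n + Q + j * n.gcd Q).gcd Q = (n + j * n.gcd Q).gcd Q := fun j => by
      rw [add_right_comm, ea_gcd]
    simp only [h1]
  have hN1 : 64 * ((range Q).filter P1).card ≤ Q := by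
    have h1 := gcd_large G y D (by omega) (by omega)
    rw [← hQ] at h1
    have h2 : (((range Q).filter P1).card : ℝ) * Real.log D ≤
      (Q : ℝ) * (Real.log y * (1 + Real.log y)) := h1
    have h3 : (((range Q).filter P1).card : ℝ) * (64 * (Real.log y * (1 + Real.log y))) ≤
        (Q : ℝ) * (Real.log y * (1 + Real.log y)) :=
      (mul_le_mul_of_nonneg_left hD (Nat.cast_nonneg _)).trans h2
    have h4 : (64 * (((range Q).filter P1).card : ℝ)) * (Real.log y * (1 + Real.log y)) ≤
        (Q : ℝ) * (Real.log y * (1 + Real.log y)) := by linarith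
    have h5 := le_of_mul_le_mul_right h4 hL
    exact_mod_cast h5
  have hN2 : 64 * ((range Q).filter P2).card ≤ Q := by
    have h1 : ((range Q).filter P2).card ≤ ∑ j ∈ Icc 1 G,
        ((range Q).filter (fun n => (n + j * n.gcd Q).gcd Q = n.gcd Q)).card := by
      refine (Finset.card_le_card ?_).trans Finset.card_biUnion_le
      intro n hn
      rw [mem_filter] at hn
      obtain ⟨hn1, j, hj1, hj2, hj3⟩ := hn
      rw [mem_biUnion]
      exact ⟨j, mem_Icc.2 ⟨hj1, hj2⟩, mem_filter.2 ⟨hn1, hj3⟩⟩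
    have h2 : ∀ j ∈ Icc 1 G,
        ((range Q).filter (fun n => (n + j * n.gcd Q).gcd Q = n.gcd Q)).card ≤
          ∏ p ∈ (Ioc G y).filter Nat.Prime, (p - 1) := by
      intro j hj
      rw [mem_Icc] at hj
      have h3 := card_same ((Ioc G y).filter Nat.Prime) hprime j (by
        intro p hp hpj
        rw [mem_filter, mem_Ioc] at hp
        have := Nat.le_of_dvd (by omega) hpj
        omega)
      have h4 : ∏ p ∈ (Ioc G y).filter Nat.Prime, p = Q := hQ.symm
      rw [h4] at h3
      exact h3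
    have h3 := h1.trans (Finset.sum_le_sum h2)
    rw [Finset.sum_const, Nat.card_Icc, Nat.add_sub_cancel, smul_eq_mul] at h3
    have h4 : ((∏ p ∈ (Ioc G y).filter Nat.Prime, (p - 1) : ℕ) : ℝ) =
        (Q : ℝ) * ∏ p ∈ (Ioc G y).filter Nat.Prime, (1 - 1 / (p : ℝ)) := by
      rw [hQ, QQ, Nat.cast_prod, Nat.cast_prod, ← Finset.prod_mul_distrib]
      refine Finset.prod_congr rfl fun p hp => ?_
      have hp1 := (hprime p hp).pos
      have hp0 : (p : ℝ) ≠ 0 := by exact_mod_cast hp1.ne'
      rw [Nat.cast_sub hp1]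
      field_simp
      simp
    have h5 := prod_bound G y hG hGy
    have h6 : (((range Q).filter P2).card : ℝ) ≤ G * ((Q : ℝ) * ((G : ℝ) / Real.log y)) := by
      have h7 : (((range Q).filter P2).card : ℝ) ≤
          G * ((∏ p ∈ (Ioc G y).filter Nat.Prime, (p - 1) : ℕ) : ℝ) := by exact_mod_cast h3
      rw [h4] at h7
      refine h7.trans ?_
      gcongr
    have h7 : 64 * (G * ((Q : ℝ) * ((G : ℝ) / Real.log y))) ≤ Q := by
      have h8 : 64 * (G * ((Q : ℝ) * ((G : ℝ) / Real.log y))) =
          Q * (64 * (G : ℝ) ^ 2 / Real.log y) := by ring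
      rw [h8]
      have h9 : 64 * (G : ℝ) ^ 2 / Real.log y ≤ 1 := by
        rw [div_le_one hly]; exact hy
      exact mul_le_of_le_one_right (Nat.cast_nonneg _) h9
    have h8 : (64 : ℝ) * (((range Q).filter P2).card : ℝ) ≤ Q := by linarith
    exact_mod_cast h8
  -- P3
  have hN3 : ((Ioc E (E + W)).filter (fun i => E + W < i + G * D)).card ≤ G * D := by
    have h1 : (Ioc E (E + W)).filter (fun i => E + W < i + G * D) ⊆
        Ioc (E + W - G * D) (E + W) := by
      intro i hi
      rw [mem_filter, mem_Ioc] at hi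
      rw [mem_Ioc]
      omega
    refine (Finset.card_le_card h1).trans ?_
    rw [Nat.card_Ioc]
    omega
  have hBad : ∀ a, (Bad Q D G E W a).card ≤ ((Ioc E (E + W)).filter (fun i => P1 (a + i))).card +
      ((Ioc E (E + W)).filter (fun i => P2 (a + i))).card + G * D := by
    intro a
    have h1 : Bad Q D G E W a ⊆ ((Ioc E (E + W)).filter (fun i => P1 (a + i)) ∪
        (Ioc E (E + W)).filter (fun i => P2 (a + i))) ∪
        (Ioc E (E + W)).filter (fun i => E + W < i + G * D) := by
      intro i hi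
      unfold Bad at hi
      rw [mem_filter] at hi
      obtain ⟨hi1, hi2⟩ := hi
      rw [mem_union, mem_union, mem_filter, mem_filter, mem_filter]
      rcases hi2 with h | h | h
      · exact Or.inl (Or.inl ⟨hi1, h⟩)
      · exact Or.inl (Or.inr ⟨hi1, h⟩)
      · exact Or.inr ⟨hi1, h⟩
    refine (Finset.card_le_card h1).trans ((Finset.card_union_le _ _).trans ?_)
    exact add_le_add (Finset.card_union_le _ _) hN3
  have hsum : ∑ a ∈ range Q, (Bad Q D G E W a).card ≤
      W * ((range Q).filter P1).card + W * ((range Q).filter P2).card + Q * (G * D) := by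
    refine (Finset.sum_le_sum fun a _ => hBad a).trans ?_
    rw [Finset.sum_add_distrib, Finset.sum_add_distrib, ea_sum Q _ P1 hP1, ea_sum Q _ P2 hP2,
      Finset.sum_const, card_range, smul_eq_mul, Nat.card_Ioc]
    have h1 : E + W - E = W := by omega
    rw [h1]
  by_contra hcon
  push Not at hcon
  have h1 : Q * W ≤ ∑ a ∈ range Q, 16 * (Bad Q D G E W a).card := by
    have h2 : ∑ a ∈ range Q, W ≤ ∑ a ∈ range Q, 16 * (Bad Q D G E W a).card :=
      Finset.sum_le_sum fun a _ => (hcon a).le
    rwa [Finset.sum_const, card_range, smul_eq_mul] at h2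
  rw [← Finset.mul_sum] at h1
  have hWpos : 0 < W := by
    have : 0 < G * D := Nat.mul_pos (by omega) (by omega)
    omega
  have h2 := Nat.mul_le_mul_left W hN1
  have h3 := Nat.mul_le_mul_left W hN2
  have h4 := Nat.mul_le_mul_left Q hW
  have h5 : 0 < Q * W := Nat.mul_pos hQpos hWpos
  have e1 : W * (64 * ((range Q).filter P1).card) = 64 * (W * ((range Q).filter P1).card) := by
    ring
  have e2 : W * (64 * ((range Q).filter P2).card) = 64 * (W * ((range Q).filter P2).card) := by
    ring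
  have e3 : Q * (64 * (G * D)) = 64 * (Q * (G * D)) := by ring
  have e4 : W * Q = Q * W := Nat.mul_comm _ _
  rw [e1, e4] at h2
  rw [e2, e4] at h3
  rw [e3] at h4
  omega

end Pool.Agent.Helper9.PF
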