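import Mathlib

/-!
PROJECT PF, module PF-12. Many design primes.

`many`. Put `z L = 2 ^ (2 ^ (2 ^ (L - 2)))`, `g L = 2 ^ (L ^ 8)`. If the statement fails for some `L₀`, then for every `L ≥ L₀` the set of the `q ∈ A` with `g L < q ≤ z L` has less than `g L` elements, so
`#{q ∈ A : q ≤ z L} ≤ 2 g L`. Then `∑_{q ∈ A} 1/q ≤ ∑_{q ≤ z L₁} 1/q + ∑_{L ≥ L₁} 2 g (L + 1) / z L`, and `g (L + 1) / z L = 2 ^ ((L + 1) ^ 8 - 2 ^ (2 ^ (L - 2)))` is at most `2 ^ (- L)` for large `L`: the series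
converges, contradiction. (E.g. bound all finite partial sums: `summable_of_sum_le`.)

`exists_q`. Enumerate `P` (`Finset.equivFin` or `orderEmbOfFin`) and `I`; use the number `(index of i) * u + j < I.card * u ≤ P.card`.
-/

set_option autoImplicit false

namespace Pool.Agent.Helper9.PF

open Finset

private theorem h99_pow : ∀ L : ℕ, 44 ≤ L → (L + 1) ^ 8 + L ≤ 2 ^ L := by
  intro L hL
  induction L, hL using Nat.le_induction with
  | base => norm_num
  | succ L hL ih =>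
    have h1 : (45 * (L + 1 + 1)) ^ 8 ≤ (46 * (L + 1)) ^ 8 := Nat.pow_le_pow_left (by omega) 8
    rw [mul_pow, mul_pow] at h1
    have h2 : (46 : ℕ) ^ 8 ≤ 2 * 45 ^ 8 := by norm_num
    have h3 : 45 ^ 8 * (L + 1 + 1) ^ 8 ≤ 45 ^ 8 * (2 * (L + 1) ^ 8) := by
      calc 45 ^ 8 * (L + 1 + 1) ^ 8 ≤ 46 ^ 8 * (L + 1) ^ 8 := h1
        _ ≤ (2 * 45 ^ 8) * (L + 1) ^ 8 := Nat.mul_le_mul_right _ h2
        _ = 45 ^ 8 * (2 * (L + 1) ^ 8) := by ring
    have h4 : (L + 1 + 1) ^ 8 ≤ 2 * (L + 1) ^ 8 := Nat.le_of_mul_le_mul_left h3 (by positivity)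
    rw [pow_succ 2 L]
    omega

private theorem h99_exp {L : ℕ} (hL : 44 ≤ L) : (L + 1) ^ 8 + L ≤ 2 ^ (2 ^ (L - 2)) := by
  refine (h99_pow L hL).trans (Nat.pow_le_pow_right two_pos ?_)
  obtain ⟨m, rfl⟩ : ∃ m, L = m + 2 := ⟨L - 2, by omega⟩
  have h1 : m + 2 - 2 = m := by omega
  rw [h1]
  have h2 : m + 2 ≤ 2 * m := by omega
  have h3 : ∀ k : ℕ, 2 * (k + 2) ≤ 2 ^ (k + 2) := by
    intro k
    induction k with
    | zero => norm_num
    | succ k ih =>
      rw [show k + 1 + 2 = (k + 2) + 1 from rfl, pow_succ 2 (k + 2)]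
      omega
  have h4 := h3 (m - 2)
  have h5 : m - 2 + 2 = m := by omega
  rw [h5] at h4
  exact h2.trans h4

open Classical in
theorem many (A : Set ℕ) (hdiv : ¬ Summable (fun p : ℕ => if p ∈ A then 1 / (p : ℝ) else 0)) :
    ∀ L₀ : ℕ, ∃ L ≥ L₀, ∃ P : Finset ℕ, P.card = 2 ^ (L ^ 8) ∧
      ∀ q ∈ P, q ∈ A ∧ 2 ^ (L ^ 8) < q ∧ q ≤ 2 ^ (2 ^ (2 ^ (L - 2))) := by
  intro L₀
  by_contra hcon
  push Not at hcon
  apply hdiv
  obtain ⟨z, hz⟩ : ∃ z : ℕ → ℕ, ∀ L, z L = 2 ^ (2 ^ (2 ^ (L - 2))) := ⟨_, fun _ => rfl⟩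
  obtain ⟨g, hg⟩ : ∃ g : ℕ → ℕ, ∀ L, g L = 2 ^ (L ^ 8) := ⟨_, fun _ => rfl⟩
  -- few elements of A
  have hfew : ∀ L ≥ L₀, ((Icc (g L + 1) (z L)).filter fun q => q ∈ A).card ≤ g L := by
    intro L hL
    by_contra hlt
    push Not at hlt
    obtain ⟨P, hP1, hP2⟩ := Finset.exists_subset_card_eq hlt.le
    rw [hg] at hP2
    obtain ⟨q, hq, hq2⟩ := hcon L hL P hP2
    have h1 := hP1 hq
    rw [mem_filter, mem_Icc, hg, hz] at h1
    exact absurd h1.1.2 (not_le.2 (hq2 h1.2 (by omega)))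
  obtain ⟨a, ha⟩ : ∃ a : ℕ → ℝ, ∀ p, a p = if p ∈ A then 1 / (p : ℝ) else 0 := ⟨_, fun _ => rfl⟩
  have ha0 : ∀ p, 0 ≤ a p := by
    intro p
    rw [ha]
    split_ifs
    · positivity
    · exact le_rfl
  have hzpos : ∀ L, 0 < z L := fun L => by
    rw [hz]
    positivity
  have hzmono : ∀ L, z L ≤ z (L + 1) := by
    intro L
    rw [hz, hz]
    refine Nat.pow_le_pow_right two_pos (Nat.pow_le_pow_right two_pos
      (Nat.pow_le_pow_right two_pos (by omega)))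
  have hzge : ∀ L, L ≤ z L := by
    intro L
    rw [hz]
    have h1 : ∀ n : ℕ, n + 1 ≤ 2 ^ n := fun n => Nat.lt_two_pow_self
    have h2 := h1 (L - 2)
    have h3 := h1 (2 ^ (L - 2))
    have h4 := h1 (2 ^ (2 ^ (L - 2)))
    omega
  obtain ⟨L₁, hL₁⟩ : ∃ L₁, L₁ = max L₀ 44 := ⟨_, rfl⟩
  have hL10 : L₀ ≤ L₁ := by
    rw [hL₁]
    exact le_max_left _ _
  have hL11 : 44 ≤ L₁ := by
    rw [hL₁]
    exact le_max_right _ _
  -- one step
  have hstep : ∀ M ≥ L₁, ∑ p ∈ Ico (z M + 1) (z (M + 1) + 1), a p ≤ 2 * (1 / 2 : ℝ) ^ M := by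
    intro M hM
    have h1 : ∑ p ∈ Ico (z M + 1) (z (M + 1) + 1), a p =
        ∑ p ∈ (Ico (z M + 1) (z (M + 1) + 1)).filter (fun p => p ∈ A), 1 / (p : ℝ) := by
      rw [Finset.sum_filter]
      exact Finset.sum_congr rfl fun p _ => ha p
    rw [h1]
    have hzM : (0 : ℝ) < z M := by exact_mod_cast hzpos M
    have h2 : ∀ p ∈ (Ico (z M + 1) (z (M + 1) + 1)).filter (fun p => p ∈ A),
        1 / (p : ℝ) ≤ 1 / (z M : ℝ) := by
      intro p hp
      rw [mem_filter, mem_Ico] at hp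
      refine one_div_le_one_div_of_le hzM ?_
      exact_mod_cast (by omega : z M ≤ p)
    have h3 := Finset.sum_le_card_nsmul _ _ _ h2
    refine h3.trans ?_
    have h4 : ((Ico (z M + 1) (z (M + 1) + 1)).filter fun p => p ∈ A).card ≤ 2 * g (M + 1) := by
      have h5 : (Ico (z M + 1) (z (M + 1) + 1)).filter (fun p => p ∈ A) ⊆
          Icc 1 (g (M + 1)) ∪ (Icc (g (M + 1) + 1) (z (M + 1))).filter fun q => q ∈ A := by
        intro p hp
        rw [mem_filter, mem_Ico] at hp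
        rw [mem_union, mem_filter, mem_Icc, mem_Icc]
        by_cases h6 : p ≤ g (M + 1)
        · left
          exact ⟨by omega, h6⟩
        · right
          exact ⟨⟨by omega, by omega⟩, hp.2⟩
      have h6 := Finset.card_le_card h5
      have h7 := Finset.card_union_le (Icc 1 (g (M + 1)))
        ((Icc (g (M + 1) + 1) (z (M + 1))).filter fun q => q ∈ A)
      have h8 := hfew (M + 1) (by omega)
      rw [Nat.card_Icc] at h7
      omega
    rw [nsmul_eq_mul]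
    have h9 : (g (M + 1) : ℝ) * 2 ^ M ≤ z M := by
      have h10 : g (M + 1) * 2 ^ M ≤ z M := by
        rw [hg, hz, ← pow_add]
        exact Nat.pow_le_pow_right two_pos (h99_exp (by omega))
      exact_mod_cast h10
    have h11 : ((((Ico (z M + 1) (z (M + 1) + 1)).filter fun p => p ∈ A).card : ℕ) : ℝ) ≤
        2 * g (M + 1) := by exact_mod_cast h4
    have h12 : (1 / 2 : ℝ) ^ M = 1 / 2 ^ M := by rw [one_div_pow]
    rw [h12]
    have h13 : (0 : ℝ) < 2 ^ M := by positivity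
    calc ((((Ico (z M + 1) (z (M + 1) + 1)).filter fun p => p ∈ A).card : ℕ) : ℝ) * (1 / (z M : ℝ))
        ≤ 2 * g (M + 1) * (1 / (z M : ℝ)) := mul_le_mul_of_nonneg_right h11 (by positivity)
      _ ≤ 2 * (1 / 2 ^ M) := by
          rw [mul_assoc]
          refine mul_le_mul_of_nonneg_left ?_ (by norm_num)
          rw [mul_one_div, div_le_div_iff₀ hzM h13, one_mul]
          exact h9
  have hmain : ∀ M ≥ L₁, ∑ p ∈ range (z M + 1), a p ≤
      ∑ p ∈ range (z L₁ + 1), a p + 4 - 4 * (1 / 2 : ℝ) ^ M := by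
    intro M hM
    induction M, hM using Nat.le_induction with
    | base =>
      have h1 : (1 / 2 : ℝ) ^ L₁ ≤ 1 := pow_le_one₀ (by norm_num) (by norm_num)
      linarith
    | succ M hM ih =>
      have h1 := Finset.sum_range_add_sum_Ico a (show z M + 1 ≤ z (M + 1) + 1 by
        have := hzmono M
        omega)
      have h2 := hstep M hM
      have h3 : (1 / 2 : ℝ) ^ (M + 1) = (1 / 2) ^ M * (1 / 2) := pow_succ _ _
      rw [← h1, h3]
      linarith
  have hfun : (fun p : ℕ => if p ∈ A then 1 / (p : ℝ) else 0) = a := by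
    funext p
    rw [ha]
  rw [hfun]
  refine summable_of_sum_range_le (c := ∑ p ∈ range (z L₁ + 1), a p + 4) ha0 fun n => ?_
  have h1 := hmain (max L₁ n) (le_max_left _ _)
  have h2 : ∑ p ∈ range n, a p ≤ ∑ p ∈ range (z (max L₁ n) + 1), a p := by
    refine Finset.sum_le_sum_of_subset_of_nonneg ?_ fun p _ _ => ha0 p
    refine Finset.range_subset_range.2 ?_
    have h3 := hzge (max L₁ n)
    have h4 : n ≤ max L₁ n := le_max_right _ _
    omega
  have h5 : 0 ≤ (1 / 2 : ℝ) ^ (max L₁ n) := by positivity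
  linarith

theorem exists_q (P I : Finset ℕ) (u : ℕ) (h : I.card * u ≤ P.card) :
    ∃ q : ℕ → ℕ → ℕ, (∀ i ∈ I, ∀ j < u, q i j ∈ P) ∧
      ∀ i ∈ I, ∀ i' ∈ I, ∀ j < u, ∀ j' < u, q i j = q i' j' → i = i' ∧ j = j' := by
  classical
  obtain ⟨F, hF1, hF2⟩ : ∃ F : ℕ → ℕ, (∀ n < P.card, F n ∈ P) ∧
      ∀ n < P.card, ∀ m < P.card, F n = F m → n = m := by
    refine ⟨fun n => if hn : n < P.card then (P.equivFin.symm ⟨n, hn⟩ : ℕ) else 0, ?_, ?_⟩
    · intro n hn
      simp only [dif_pos hn]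
      exact (P.equivFin.symm ⟨n, hn⟩).2
    · intro n hn m hm hnm
      simp only [dif_pos hn, dif_pos hm] at hnm
      have h1 := P.equivFin.symm.injective (Subtype.ext hnm)
      exact congrArg Fin.val h1
  obtain ⟨G, hG1, hG2⟩ : ∃ G : ℕ → ℕ, (∀ i ∈ I, G i < I.card) ∧
      ∀ i ∈ I, ∀ i' ∈ I, G i = G i' → i = i' := by
    refine ⟨fun i => if hi : i ∈ I then (I.equivFin ⟨i, hi⟩ : ℕ) else 0, ?_, ?_⟩
    · intro i hi
      simp only [dif_pos hi]
      exact (I.equivFin ⟨i, hi⟩).isLt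
    · intro i hi i' hi' hii
      simp only [dif_pos hi, dif_pos hi'] at hii
      have h1 := I.equivFin.injective (Fin.ext hii)
      exact congrArg Subtype.val h1
  have hlt : ∀ i ∈ I, ∀ j < u, G i * u + j < P.card := by
    intro i hi j hj
    have h1 : (G i + 1) * u ≤ I.card * u := Nat.mul_le_mul_right u (hG1 i hi)
    rw [add_mul, one_mul] at h1
    omega
  refine ⟨fun i j => F (G i * u + j), fun i hi j hj => hF1 _ (hlt i hi j hj), ?_⟩
  intro i hi i' hi' j hj j' hj' hq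
  have h1 := hF2 _ (hlt i hi j hj) _ (hlt i' hi' j' hj') hq
  have hu : 0 < u := by omega
  have h2 : (G i * u + j) / u = G i := by
    rw [add_comm, Nat.add_mul_div_right _ _ hu, Nat.div_eq_of_lt hj, zero_add]
  have h3 : (G i' * u + j') / u = G i' := by
    rw [add_comm, Nat.add_mul_div_right _ _ hu, Nat.div_eq_of_lt hj', zero_add]
  have h4 : G i = G i' := by rw [← h2, ← h3, h1]
  refine ⟨hG2 i hi i' hi' h4, ?_⟩
  rw [h4] at h1
  omega

end Pool.Agent.Helper9.PF
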