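import Pool.Agent.Helper9.PF.Defs

/-!
PROJECT PF, module PF-02. The bound for `bet`.

Let `r = lam⁻¹ ≤ 2/3`, `l = log_2 M ≤ lam ^ H`. First sum: the terms with `h + 1 ≤ H` are `≤ B r^(h+1)`, total `≤ B r/(1-r) ≤ 2 B`. For `h ≥ H`:
`|a (M+1+h)| ≤ log_2 (M+1+h) ≤ l + (h+1)` because `M + 1 + h ≤ M * 2^(h+1)` (`M ≥ 1`); `∑_{h ≥ H} l r^(h+1) = l r^(H+1)/(1-r) ≤ 2 l r^H ≤ 2` and
`∑_{h ≥ 0} (h+1) r^(h+1) = r/(1-r)^2 ≤ 6` (`tsum_coe_mul_geometric_of_norm_lt_one`). Second sum: `j ≤ H`: `≤ B/(1-r) ≤ 3 B`; `j > H`: `|a (M-j)| ≤ l`, total `≤ l r^H * 2 ≤ 2`.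
Total `≤ 5 B + 10`. It is convenient to bound the term of the first sum for every `h` by `(B + [h ≥ H] l) r^(h+1) + (h+1) r^(h+1)`; everything is summable.
-/

set_option autoImplicit false

namespace Pool.Agent.Helper9.PF

open Finset

private lemma h86_geo (r : ℝ) (hr0 : 0 ≤ r) (hr : r ≤ 2 / 3) (n : ℕ) :
    ∑ j ∈ range n, r ^ j ≤ 3 := by
  have h1 : r < 1 := by linarith
  have h2 := (summable_geometric_of_lt_one hr0 h1).sum_le_tsum (range n)
    (fun i _ => pow_nonneg hr0 i)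
  rw [tsum_geometric_of_lt_one hr0 h1] at h2
  refine h2.trans ?_
  rw [inv_le_comm₀ (by linarith) (by norm_num)]
  linarith

private lemma h86_geo1 (r : ℝ) (hr0 : 0 ≤ r) (hr : r ≤ 2 / 3) (n : ℕ) :
    ∑ j ∈ range n, r ^ (j + 1) ≤ 2 := by
  have h := h86_geo r hr0 hr n
  have h2 : ∑ j ∈ range n, r ^ (j + 1) = (∑ j ∈ range n, r ^ j) * r := by
    rw [Finset.sum_mul]
    exact Finset.sum_congr rfl (fun j _ => pow_succ r j)
  rw [h2]
  have h3 : 0 ≤ ∑ j ∈ range n, r ^ j := Finset.sum_nonneg (fun j _ => pow_nonneg hr0 j)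
  nlinarith

private lemma h86_log (M n : ℕ) (hM : 1 ≤ M) :
    Nat.log 2 (M + n) ≤ Nat.log 2 M + n := by
  have h1 : M + n ≤ M * 2 ^ n := by
    have h2 : n + 1 ≤ 2 ^ n := Nat.lt_two_pow_self
    calc M + n ≤ M + M * n := by
          have := Nat.le_mul_of_pos_left n hM
          omega
      _ = M * (n + 1) := by ring
      _ ≤ M * 2 ^ n := Nat.mul_le_mul_left M h2
  have h3 : M + n < 2 ^ (Nat.log 2 M + n + 1) := by
    calc M + n ≤ M * 2 ^ n := h1
      _ < 2 ^ (Nat.log 2 M + 1) * 2 ^ n := by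
          have h4 : M < 2 ^ (Nat.log 2 M + 1) := Nat.lt_pow_succ_log_self (by norm_num) M
          exact Nat.mul_lt_mul_of_pos_right h4 (by positivity)
      _ = 2 ^ (Nat.log 2 M + n + 1) := by ring
  have h5 := Nat.log_lt_of_lt_pow (b := 2) (by omega) h3
  omega

private lemma h86_absle (a : ℕ → ℤ) (t : ℕ) (c : ℕ) (h : |a t| ≤ (c : ℤ)) :
    |(a t : ℝ)| ≤ (c : ℝ) := by
  have h1 : ((|a t| : ℤ) : ℝ) ≤ ((c : ℤ) : ℝ) := by exact_mod_cast h
  rwa [Int.cast_abs, Int.cast_natCast] at h1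

private lemma h86_nsum (r : ℝ) (hr0 : 0 ≤ r) (hr : r ≤ 2 / 3) :
    Summable (fun n : ℕ => (n : ℝ) * r ^ n) ∧ ∑' n : ℕ, (n : ℝ) * r ^ n ≤ 6 := by
  have h1 : ‖r‖ < 1 := by
    rw [Real.norm_eq_abs, abs_of_nonneg hr0]
    linarith
  refine ⟨?_, ?_⟩
  · have h2 := summable_pow_mul_geometric_of_norm_lt_one (R := ℝ) 1 h1
    simpa using h2
  · rw [tsum_coe_mul_geometric_of_norm_lt_one h1]
    have h3 : (1 : ℝ) / 3 ≤ 1 - r := by linarith
    rw [div_le_iff₀ (by nlinarith)]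
    nlinarith

theorem bet_le (lam : ℝ) (hlam : 3 / 2 ≤ lam) (a : ℕ → ℤ) (ha : ∀ t, |a t| ≤ (Nat.log 2 t : ℤ))
    (M H B : ℕ) (hM : 1 ≤ M) (hH : (Nat.log 2 M : ℝ) ≤ lam ^ H)
    (hB : ∀ t, M ≤ t + H → t ≤ M + H → |a t| ≤ (B : ℤ)) :
    bet lam a M ≤ 5 * (B : ℝ) + 20 := by
  have hlam0 : (0 : ℝ) < lam := by linarith
  set r : ℝ := lam⁻¹ with hr
  have hr0 : 0 ≤ r := by positivity
  have hr1 : r ≤ 2 / 3 := by
    rw [hr, inv_le_comm₀ hlam0 (by norm_num)]
    linarith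
  have hlr : ∀ k : ℕ, (Nat.log 2 M : ℝ) * r ^ (H + k) ≤ r ^ k := by
    intro k
    have h1 : (Nat.log 2 M : ℝ) * r ^ H ≤ 1 := by
      calc (Nat.log 2 M : ℝ) * r ^ H ≤ lam ^ H * r ^ H :=
            mul_le_mul_of_nonneg_right hH (pow_nonneg hr0 H)
        _ = (lam * r) ^ H := (mul_pow _ _ _).symm
        _ = 1 := by rw [hr, mul_inv_cancel₀ hlam0.ne', one_pow]
    calc (Nat.log 2 M : ℝ) * r ^ (H + k) = ((Nat.log 2 M : ℝ) * r ^ H) * r ^ k := by
          rw [pow_add]; ring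
      _ ≤ 1 * r ^ k := mul_le_mul_of_nonneg_right h1 (pow_nonneg hr0 k)
      _ = r ^ k := one_mul _
  -- the first sum
  have hf0 : ∀ h : ℕ, 0 ≤ |(a (M + 1 + h) : ℝ)| * r ^ (h + 1) :=
    fun h => mul_nonneg (abs_nonneg _) (pow_nonneg hr0 _)
  obtain ⟨hns, hn6⟩ := h86_nsum r hr0 hr1
  have hgeo : Summable (fun n : ℕ => r ^ n) :=
    summable_geometric_of_lt_one hr0 (by linarith)
  have hlog : ∀ h : ℕ, |(a (M + 1 + h) : ℝ)| ≤ (Nat.log 2 M : ℝ) + ((h : ℝ) + 1) := by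
    intro h
    have h1 := h86_absle a (M + 1 + h) _ (ha (M + 1 + h))
    have h2 := h86_log M (h + 1) hM
    have h3 : M + (h + 1) = M + 1 + h := by ring
    rw [h3] at h2
    have h4 : (Nat.log 2 (M + 1 + h) : ℝ) ≤ ((Nat.log 2 M + (h + 1) : ℕ) : ℝ) := by
      exact_mod_cast h2
    push_cast at h4
    linarith
  have hn1 : Summable (fun h : ℕ => ((h + 1 : ℕ) : ℝ) * r ^ (h + 1)) :=
    (summable_nat_add_iff 1 (f := fun n : ℕ => (n : ℝ) * r ^ n)).2 hns
  have hg1 : Summable (fun h : ℕ => r ^ (h + 1)) :=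
    (summable_nat_add_iff 1 (f := fun n : ℕ => r ^ n)).2 hgeo
  have hfs : Summable (fun h : ℕ => |(a (M + 1 + h) : ℝ)| * r ^ (h + 1)) := by
    refine Summable.of_nonneg_of_le hf0 (g := fun h : ℕ => |(a (M + 1 + h) : ℝ)| * r ^ (h + 1))
      (f := fun h : ℕ => (Nat.log 2 M : ℝ) * r ^ (h + 1) + ((h + 1 : ℕ) : ℝ) * r ^ (h + 1)) ?_ ?_
    · intro h
      have h1 := mul_le_mul_of_nonneg_right (hlog h) (pow_nonneg hr0 (h + 1))
      have h2 : ((h + 1 : ℕ) : ℝ) = (h : ℝ) + 1 := by push_cast; ring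
      rw [h2]
      linarith
    · exact (hg1.mul_left _).add hn1
  have hfirst : ∑' h : ℕ, |(a (M + 1 + h) : ℝ)| * r ^ (h + 1) ≤ 2 * (B : ℝ) + 8 := by
    rw [← hfs.sum_add_tsum_nat_add H]
    have hA : ∑ h ∈ range H, |(a (M + 1 + h) : ℝ)| * r ^ (h + 1) ≤ 2 * (B : ℝ) := by
      calc ∑ h ∈ range H, |(a (M + 1 + h) : ℝ)| * r ^ (h + 1)
          ≤ ∑ h ∈ range H, (B : ℝ) * r ^ (h + 1) := by
            refine Finset.sum_le_sum fun h hh => ?_
            rw [Finset.mem_range] at hh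
            exact mul_le_mul_of_nonneg_right
              (h86_absle a _ _ (hB _ (by omega) (by omega))) (pow_nonneg hr0 _)
        _ = (B : ℝ) * ∑ h ∈ range H, r ^ (h + 1) := by rw [Finset.mul_sum]
        _ ≤ (B : ℝ) * 2 :=
            mul_le_mul_of_nonneg_left (h86_geo1 r hr0 hr1 H) (Nat.cast_nonneg B)
        _ = 2 * (B : ℝ) := by ring
    have hC : ∑' h : ℕ, |(a (M + 1 + (h + H)) : ℝ)| * r ^ (h + H + 1) ≤ 8 := by
      have hs2 : Summable (fun h : ℕ => |(a (M + 1 + (h + H)) : ℝ)| * r ^ (h + H + 1)) :=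
        (summable_nat_add_iff H
          (f := fun h : ℕ => |(a (M + 1 + h) : ℝ)| * r ^ (h + 1))).2 hfs
      have hs3 : Summable (fun h : ℕ => ((h + (H + 1) : ℕ) : ℝ) * r ^ (h + (H + 1))) :=
        (summable_nat_add_iff (H + 1) (f := fun n : ℕ => (n : ℝ) * r ^ n)).2 hns
      have h1 : ∑' h : ℕ, |(a (M + 1 + (h + H)) : ℝ)| * r ^ (h + H + 1)
          ≤ ∑' h : ℕ, (r ^ (h + 1) + ((h + (H + 1) : ℕ) : ℝ) * r ^ (h + (H + 1))) := by
        refine hs2.tsum_le_tsum (fun h => ?_) (hg1.add hs3)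
        have h2 := mul_le_mul_of_nonneg_right (hlog (h + H)) (pow_nonneg hr0 (h + H + 1))
        have h3 := hlr (h + 1)
        have h4 : H + (h + 1) = h + H + 1 := by ring
        rw [h4] at h3
        have h5 : h + (H + 1) = h + H + 1 := by ring
        have h6 : ((h + H + 1 : ℕ) : ℝ) = ((h + H : ℕ) : ℝ) + 1 := by push_cast; ring
        rw [h5, h6]
        nlinarith [h2, h3]
      rw [hg1.tsum_add hs3] at h1
      have h7 : ∑' h : ℕ, r ^ (h + 1) ≤ 2 := by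
        refine Real.tsum_le_of_sum_range_le (fun n => pow_nonneg hr0 _) (fun n => ?_)
        exact h86_geo1 r hr0 hr1 n
      have h8 : ∑' h : ℕ, ((h + (H + 1) : ℕ) : ℝ) * r ^ (h + (H + 1)) ≤ 6 := by
        have h9 := hns.sum_add_tsum_nat_add (H + 1)
        have h10 : 0 ≤ ∑ i ∈ range (H + 1), (i : ℝ) * r ^ i :=
          Finset.sum_nonneg (fun i _ => mul_nonneg (Nat.cast_nonneg i) (pow_nonneg hr0 i))
        linarith
      linarith
    linarith
  -- the second sum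
  have hsecond : ∑ j ∈ range M, |(a (M - j) : ℝ)| * r ^ j ≤ 3 * (B : ℝ) + 2 := by
    have h1 : ∑ j ∈ range M, |(a (M - j) : ℝ)| * r ^ j
        ≤ ∑ j ∈ range M, ((B : ℝ) * r ^ j + (if H < j then r ^ (j - H) else 0)) := by
      refine Finset.sum_le_sum fun j hj => ?_
      rw [Finset.mem_range] at hj
      by_cases hjH : H < j
      · rw [if_pos hjH]
        have h2 : |(a (M - j) : ℝ)| ≤ (Nat.log 2 M : ℝ) := by
          refine (h86_absle a _ _ (ha (M - j))).trans ?_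
          exact_mod_cast Nat.log_mono_right (Nat.sub_le M j)
        have h3 := mul_le_mul_of_nonneg_right h2 (pow_nonneg hr0 j)
        have h4 := hlr (j - H)
        have h5 : H + (j - H) = j := by omega
        rw [h5] at h4
        have h6 : 0 ≤ (B : ℝ) * r ^ j := mul_nonneg (Nat.cast_nonneg B) (pow_nonneg hr0 j)
        linarith
      · rw [if_neg hjH, add_zero]
        exact mul_le_mul_of_nonneg_right
          (h86_absle a _ _ (hB _ (by omega) (by omega))) (pow_nonneg hr0 _)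
    rw [Finset.sum_add_distrib, ← Finset.mul_sum] at h1
    have h2 : ∑ j ∈ range M, (if H < j then r ^ (j - H) else 0) ≤ 2 := by
      have hg : ∀ j : ℕ, 0 ≤ (if H < j then r ^ (j - H) else (0 : ℝ)) := by
        intro j
        split_ifs
        · exact pow_nonneg hr0 _
        · exact le_refl _
      have h3 : ∑ j ∈ range M, (if H < j then r ^ (j - H) else (0 : ℝ))
          ≤ ∑ j ∈ range (H + 1 + M), (if H < j then r ^ (j - H) else (0 : ℝ)) := by
        refine Finset.sum_le_sum_of_subset_of_nonneg ?_ (fun i _ _ => hg i)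
        intro i hi
        rw [Finset.mem_range] at hi ⊢
        omega
      rw [Finset.sum_range_add] at h3
      have h4 : ∑ x ∈ range (H + 1), (if H < x then r ^ (x - H) else (0 : ℝ)) = 0 := by
        refine Finset.sum_eq_zero fun x hx => ?_
        rw [Finset.mem_range] at hx
        rw [if_neg (by omega)]
      have h5 : ∑ x ∈ range M, (if H < H + 1 + x then r ^ (H + 1 + x - H) else (0 : ℝ))
          = ∑ x ∈ range M, r ^ (x + 1) := by
        refine Finset.sum_congr rfl fun x _ => ?_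
        rw [if_pos (by omega)]
        congr 1
        omega
      rw [h4, h5, zero_add] at h3
      exact h3.trans (h86_geo1 r hr0 hr1 M)
    have h3 : (B : ℝ) * ∑ j ∈ range M, r ^ j ≤ (B : ℝ) * 3 :=
      mul_le_mul_of_nonneg_left (h86_geo r hr0 hr1 M) (Nat.cast_nonneg B)
    linarith
  unfold bet
  rw [← hr]
  linarith

theorem bet_nonneg (lam : ℝ) (hlam : 3 / 2 ≤ lam) (a : ℕ → ℤ) (M : ℕ) : 0 ≤ bet lam a M := by
  have hlam0 : (0 : ℝ) < lam := by linarith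
  have hr0 : 0 ≤ lam⁻¹ := by positivity
  unfold bet
  refine add_nonneg (tsum_nonneg fun h => mul_nonneg (abs_nonneg _) (pow_nonneg hr0 _)) ?_
  exact Finset.sum_nonneg fun j _ => mul_nonneg (abs_nonneg _) (pow_nonneg hr0 _)

end Pool.Agent.Helper9.PF
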