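import Pool.Agent.Helper9.Fib.Series
import Pool.Agent.Helper9.PF.Bet

/-!
PROJECT PF, module PF-15. The dynamical system of a rational Fibonacci series.

`Pool.Agent.Helper9.Fib.Series` (proved): `Fib.x = goldenRatio⁻¹ = - goldenConj`, `Fib.a A k`, `tsum_fib : ∑' n, (if n ∈ A then 1 / fib n else 0) = √5 * ∑' k, a A k * x ^ k`, `summable_a`, `summable_a_shift`, `a_zero`.
Write `a = Fib.a A`, `φ = goldenRatio`, `φ' = goldenConj`, `c = v √5`. Define `w : ℕ → ℤ × ℤ` by recursion: `w 0 = (-u, 0)`, `w (M+1) = T (w M) (a (M+1))`, `T (p, q) s = (q - v s, p + q + 2 v s)`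
(multiplication by `φ` in `ℤ[φ]`, plus `s v √5 = s v (2 φ - 1)`), `R (p, q) = p + q φ`, `R' (p, q) = p + q φ'`. As `φ^2 = φ + 1`, `φ'^2 = φ' + 1`, `2 φ - 1 = √5`, `2 φ' - 1 = - √5`:
`R (T (p,q) s) = φ R (p,q) + c s`, `R' (T (p,q) s) = φ' R' (p,q) - c s`.
Induction: `R (w M) = - c ∑' h, a (M+1+h) x^(h+1)`. `M = 0`: by `hY`, `u = v √5 ∑' k, a k x^k` and `a 0 = 0`. Step: `φ ∑' h, a (M+1+h) x^(h+1) = a (M+1) + ∑' h, a (M+2+h) x^(h+1)` (`φ x = 1`, `tsum_eq_zero_add`).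
`R' (w M) = - u φ'^M - c ∑ j ∈ range M, a (M-j) φ'^j` (`Finset.sum_range_succ'`). So `|R (w M)| ≤ c bet`, `|R' (w M)| ≤ |u| + c bet` (`|φ'| = x = φ⁻¹ < 1`; both parts of `bet` are nonnegative; `norm_tsum_le_tsum_norm`).
`q = (R - R') / √5`, `p = R - q φ`: `|q| ≤ 2 v bet + |u|`, `|p| ≤ √5 v bet + φ |q| ≤ 6 (v + |u|) (1 + bet)`.
-/

set_option autoImplicit false

namespace Pool.Agent.Helper9.PF

open Finset

private def dT (v : ℕ) (p : ℤ × ℤ) (s : ℤ) : ℤ × ℤ := (p.2 - v * s, p.1 + p.2 + 2 * v * s)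

private def dw (a : ℕ → ℤ) (u : ℤ) (v : ℕ) : ℕ → ℤ × ℤ
  | 0 => (-u, 0)
  | (M + 1) => dT v (dw a u v M) (a (M + 1))

private theorem dT_R (v : ℕ) (p : ℤ × ℤ) (s : ℤ) :
    ((dT v p s).1 : ℝ) + ((dT v p s).2 : ℝ) * Real.goldenRatio =
      Real.goldenRatio * ((p.1 : ℝ) + (p.2 : ℝ) * Real.goldenRatio) + (v * √5) * (s : ℝ) := by
  have h1 : Real.goldenRatio ^ 2 = Real.goldenRatio + 1 := Real.goldenRatio_sq
  have h2 : √5 = 2 * Real.goldenRatio - 1 := by
    unfold Real.goldenRatio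
    ring
  unfold dT
  rw [h2]
  push_cast
  linear_combination (-(p.2 : ℝ)) * h1

private theorem dT_R' (v : ℕ) (p : ℤ × ℤ) (s : ℤ) :
    ((dT v p s).1 : ℝ) + ((dT v p s).2 : ℝ) * Real.goldenConj =
      Real.goldenConj * ((p.1 : ℝ) + (p.2 : ℝ) * Real.goldenConj) - (v * √5) * (s : ℝ) := by
  have h1 : Real.goldenConj ^ 2 = Real.goldenConj + 1 := Real.goldenConj_sq
  have h2 : √5 = 1 - 2 * Real.goldenConj := by
    unfold Real.goldenConj
    ring
  unfold dT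
  rw [h2]
  push_cast
  linear_combination (-(p.2 : ℝ)) * h1

private theorem dw_tail (A : Set ℕ) (M : ℕ) :
    Summable (fun h : ℕ => (Fib.a A (M + 1 + h) : ℝ) * Real.goldenRatio⁻¹ ^ (h + 1)) := by
  have h1 := (Fib.summable_a_shift A (M + 1)).mul_right Fib.x
  refine h1.congr fun h => ?_
  unfold Fib.x
  ring

private theorem dw_R (A : Set ℕ) (u : ℤ) (v : ℕ)
    (hu : (u : ℝ) = v * √5 * ∑' k, (Fib.a A k : ℝ) * Fib.x ^ k) (M : ℕ) :
    ((dw (Fib.a A) u v M).1 : ℝ) + ((dw (Fib.a A) u v M).2 : ℝ) * Real.goldenRatio =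
      -(v * √5) * ∑' h : ℕ, (Fib.a A (M + 1 + h) : ℝ) * Real.goldenRatio⁻¹ ^ (h + 1) := by
  have hφ : Real.goldenRatio ≠ 0 := Real.goldenRatio_pos.ne'
  induction M with
  | zero =>
    have h1 : ∑' k, (Fib.a A k : ℝ) * Fib.x ^ k =
        ∑' h : ℕ, (Fib.a A (0 + 1 + h) : ℝ) * Real.goldenRatio⁻¹ ^ (h + 1) := by
      rw [(Fib.summable_a A).tsum_eq_zero_add, Fib.a_zero, Int.cast_zero, zero_mul, zero_add]
      refine tsum_congr fun h => ?_
      rw [show 0 + 1 + h = h + 1 by ring]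
      rfl
    unfold dw
    rw [← h1]
    push_cast
    rw [hu]
    ring
  | succ M ih =>
    have h1 : ∑' h : ℕ, (Fib.a A (M + 1 + h) : ℝ) * Real.goldenRatio⁻¹ ^ (h + 1) =
        (Fib.a A (M + 1) : ℝ) * Real.goldenRatio⁻¹ +
          Real.goldenRatio⁻¹ * ∑' h : ℕ, (Fib.a A (M + 1 + 1 + h) : ℝ) * Real.goldenRatio⁻¹ ^ (h + 1) := by
      rw [(dw_tail A M).tsum_eq_zero_add, ← tsum_mul_left, add_zero, zero_add, pow_one]
      congr 1
      refine tsum_congr fun h => ?_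
      rw [show M + 1 + (h + 1) = M + 1 + 1 + h by ring]
      ring
    have h2 : dw (Fib.a A) u v (M + 1) = dT v (dw (Fib.a A) u v M) (Fib.a A (M + 1)) := rfl
    rw [h2, dT_R, ih, h1]
    field_simp
    ring

private theorem dw_R' (A : Set ℕ) (u : ℤ) (v : ℕ) (M : ℕ) :
    ((dw (Fib.a A) u v M).1 : ℝ) + ((dw (Fib.a A) u v M).2 : ℝ) * Real.goldenConj =
      -(u : ℝ) * Real.goldenConj ^ M - (v * √5) * ∑ j ∈ range M, (Fib.a A (M - j) : ℝ) * Real.goldenConj ^ j := by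
  induction M with
  | zero =>
    unfold dw
    simp
  | succ M ih =>
    have h2 : dw (Fib.a A) u v (M + 1) = dT v (dw (Fib.a A) u v M) (Fib.a A (M + 1)) := rfl
    rw [h2, dT_R', ih, Finset.sum_range_succ']
    have h3 : ∑ k ∈ range M, (Fib.a A (M + 1 - (k + 1)) : ℝ) * Real.goldenConj ^ (k + 1) =
        Real.goldenConj * ∑ j ∈ range M, (Fib.a A (M - j) : ℝ) * Real.goldenConj ^ j := by
      rw [Finset.mul_sum]
      refine Finset.sum_congr rfl fun k _ => ?_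
      rw [Nat.add_sub_add_right]
      ring
    rw [h3, Nat.sub_zero]
    ring

private theorem dw_bdR (A : Set ℕ) (u : ℤ) (v : ℕ)
    (hu : (u : ℝ) = v * √5 * ∑' k, (Fib.a A k : ℝ) * Fib.x ^ k) (M : ℕ) :
    |((dw (Fib.a A) u v M).1 : ℝ) + ((dw (Fib.a A) u v M).2 : ℝ) * Real.goldenRatio| ≤
      v * √5 * bet Real.goldenRatio (Fib.a A) M := by
  have hc : (0 : ℝ) ≤ v * √5 := by positivity
  have hr : (0 : ℝ) ≤ Real.goldenRatio⁻¹ := inv_nonneg.2 Real.goldenRatio_pos.le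
  rw [dw_R A u v hu M, abs_mul, abs_neg, abs_of_nonneg hc]
  refine mul_le_mul_of_nonneg_left ?_ hc
  have hs := (dw_tail A M).norm
  have h1 := norm_tsum_le_tsum_norm hs
  rw [Real.norm_eq_abs] at h1
  refine h1.trans ?_
  unfold bet
  have h2 : ∀ h : ℕ, ‖(Fib.a A (M + 1 + h) : ℝ) * Real.goldenRatio⁻¹ ^ (h + 1)‖ =
      |(Fib.a A (M + 1 + h) : ℝ)| * Real.goldenRatio⁻¹ ^ (h + 1) := by
    intro h
    rw [Real.norm_eq_abs, abs_mul, abs_of_nonneg (pow_nonneg hr _)]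
  rw [tsum_congr h2]
  have h3 : 0 ≤ ∑ j ∈ range M, |(Fib.a A (M - j) : ℝ)| * Real.goldenRatio⁻¹ ^ j :=
    Finset.sum_nonneg fun j _ => mul_nonneg (abs_nonneg _) (pow_nonneg hr _)
  linarith

private theorem dw_bdR' (A : Set ℕ) (u : ℤ) (v : ℕ) (M : ℕ) :
    |((dw (Fib.a A) u v M).1 : ℝ) + ((dw (Fib.a A) u v M).2 : ℝ) * Real.goldenConj| ≤
      |(u : ℝ)| + v * √5 * bet Real.goldenRatio (Fib.a A) M := by
  have hc : (0 : ℝ) ≤ v * √5 := by positivity
  have hr : (0 : ℝ) ≤ Real.goldenRatio⁻¹ := inv_nonneg.2 Real.goldenRatio_pos.le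
  have habs : |Real.goldenConj| = Real.goldenRatio⁻¹ := by
    rw [Real.inv_goldenRatio, abs_of_neg Real.goldenConj_neg]
  have hle1 : |Real.goldenConj| ≤ 1 := by
    rw [habs]
    exact inv_le_one_of_one_le₀ Real.one_lt_goldenRatio.le
  rw [dw_R' A u v M]
  refine (abs_sub _ _).trans ?_
  refine add_le_add ?_ ?_
  · rw [abs_mul, abs_neg, abs_pow]
    exact mul_le_of_le_one_right (abs_nonneg _) (pow_le_one₀ (abs_nonneg _) hle1)
  · rw [abs_mul, abs_of_nonneg hc]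
    refine mul_le_mul_of_nonneg_left ?_ hc
    unfold bet
    have h1 : |∑ j ∈ range M, (Fib.a A (M - j) : ℝ) * Real.goldenConj ^ j| ≤
        ∑ j ∈ range M, |(Fib.a A (M - j) : ℝ)| * Real.goldenRatio⁻¹ ^ j := by
      refine (Finset.abs_sum_le_sum_abs _ _).trans (le_of_eq ?_)
      refine Finset.sum_congr rfl fun j _ => ?_
      rw [abs_mul, abs_pow, habs]
    have h2 : 0 ≤ ∑' h : ℕ, |(Fib.a A (M + 1 + h) : ℝ)| * Real.goldenRatio⁻¹ ^ (h + 1) :=
      tsum_nonneg fun h => mul_nonneg (abs_nonneg _) (pow_nonneg hr _)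
    linarith

open Classical in
theorem dyn_of_eq (A : Set ℕ) (h0 : 0 ∉ A) (u : ℤ) (v : ℕ) (hv : 0 < v)
    (hY : (∑' n : ℕ, if n ∈ A then 1 / (Nat.fib n : ℝ) else 0) = (u : ℝ) / (v : ℝ)) :
    Nonempty (Dyn Real.goldenRatio (Pool.Agent.Helper9.Fib.a A) (6 * ((v : ℝ) + |(u : ℝ)|))) := by
  have hv0 : (0 : ℝ) < v := by exact_mod_cast hv
  have h5 : (0 : ℝ) < √5 := by positivity
  have hu : (u : ℝ) = v * √5 * ∑' k, (Fib.a A k : ℝ) * Fib.x ^ k := by
    have h1 := Fib.tsum_fib A h0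
    have h2 : (u : ℝ) = v * (√5 * ∑' k, (Fib.a A k : ℝ) * Fib.x ^ k) := by
      rw [← h1, hY]
      field_simp
    rw [h2]
    ring
  have hφ2 : Real.goldenRatio < 2 := Real.goldenRatio_lt_two
  have hφ1 : 1 < Real.goldenRatio := Real.one_lt_goldenRatio
  have h52 : (2 : ℝ) ≤ √5 := by
    rw [Real.le_sqrt (by norm_num) (by norm_num)]
    norm_num
  have h53 : √5 ≤ (9 / 4 : ℝ) := by
    rw [Real.sqrt_le_left (by norm_num)]
    norm_num
  have hbet : ∀ M, 0 ≤ bet Real.goldenRatio (Fib.a A) M := by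
    intro M
    have hr : (0 : ℝ) ≤ Real.goldenRatio⁻¹ := inv_nonneg.2 Real.goldenRatio_pos.le
    unfold bet
    exact add_nonneg (tsum_nonneg fun h => mul_nonneg (abs_nonneg _) (pow_nonneg hr _))
      (Finset.sum_nonneg fun j _ => mul_nonneg (abs_nonneg _) (pow_nonneg hr _))
  have hq : ∀ M, |((dw (Fib.a A) u v M).2 : ℝ)| ≤ 2 * v * bet Real.goldenRatio (Fib.a A) M + |(u : ℝ)| := by
    intro M
    have e1 := dw_bdR A u v hu M
    have e2 := dw_bdR' A u v M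
    have e3 : ((dw (Fib.a A) u v M).2 : ℝ) * √5 =
        (((dw (Fib.a A) u v M).1 : ℝ) + ((dw (Fib.a A) u v M).2 : ℝ) * Real.goldenRatio) -
        (((dw (Fib.a A) u v M).1 : ℝ) + ((dw (Fib.a A) u v M).2 : ℝ) * Real.goldenConj) := by
      unfold Real.goldenRatio Real.goldenConj
      ring
    have e4 : |((dw (Fib.a A) u v M).2 : ℝ)| * √5 ≤
        v * √5 * bet Real.goldenRatio (Fib.a A) M + (|(u : ℝ)| + v * √5 * bet Real.goldenRatio (Fib.a A) M) := by
      rw [← abs_of_pos h5, ← abs_mul, abs_of_pos h5, e3]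
      exact (abs_sub _ _).trans (add_le_add e1 e2)
    have e5 : |(u : ℝ)| ≤ |(u : ℝ)| * √5 := le_mul_of_one_le_right (abs_nonneg _) (by linarith)
    have e6 : |((dw (Fib.a A) u v M).2 : ℝ)| * √5 ≤
        (2 * v * bet Real.goldenRatio (Fib.a A) M + |(u : ℝ)|) * √5 := by
      calc _ ≤ _ := e4
        _ ≤ 2 * (v * √5 * bet Real.goldenRatio (Fib.a A) M) + |(u : ℝ)| * √5 := by linarith
        _ = _ := by ring
    exact le_of_mul_le_mul_right e6 h5
  refine ⟨{ w := dw (Fib.a A) u v, T := dT v, R := fun p => (p.1 : ℝ) + (p.2 : ℝ) * Real.goldenRatio,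
            c := v * √5, c_ne := by positivity, step := fun M => rfl, Rstep := ?_, Rbd := ?_,
            bd1 := ?_, bd2 := ?_ }⟩
  · intro M
    exact dT_R v _ _
  · intro M
    rw [abs_of_nonneg (by positivity : (0 : ℝ) ≤ v * √5)]
    exact dw_bdR A u v hu M
  · intro M
    have e1 := dw_bdR A u v hu M
    have e2 := hq M
    have e3 : ((dw (Fib.a A) u v M).1 : ℝ) =
        (((dw (Fib.a A) u v M).1 : ℝ) + ((dw (Fib.a A) u v M).2 : ℝ) * Real.goldenRatio) -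
          ((dw (Fib.a A) u v M).2 : ℝ) * Real.goldenRatio := by ring
    have e4 : |((dw (Fib.a A) u v M).1 : ℝ)| ≤
        v * √5 * bet Real.goldenRatio (Fib.a A) M +
          (2 * v * bet Real.goldenRatio (Fib.a A) M + |(u : ℝ)|) * Real.goldenRatio := by
      rw [e3]
      refine (abs_sub _ _).trans (add_le_add e1 ?_)
      rw [abs_mul, abs_of_pos Real.goldenRatio_pos]
      exact mul_le_mul_of_nonneg_right e2 Real.goldenRatio_pos.le
    have hb := hbet M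
    have hvb : 0 ≤ v * bet Real.goldenRatio (Fib.a A) M := by positivity
    have hua : 0 ≤ |(u : ℝ)| := abs_nonneg _
    have hub : 0 ≤ |(u : ℝ)| * bet Real.goldenRatio (Fib.a A) M := by positivity
    have e5 : v * √5 * bet Real.goldenRatio (Fib.a A) M ≤ 9 / 4 * (v * bet Real.goldenRatio (Fib.a A) M) := by
      calc v * √5 * bet Real.goldenRatio (Fib.a A) M = √5 * (v * bet Real.goldenRatio (Fib.a A) M) := by ring
        _ ≤ _ := mul_le_mul_of_nonneg_right h53 hvb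
    have hφ17 : Real.goldenRatio ≤ 13 / 8 := by
      unfold Real.goldenRatio
      linarith
    have e6 : (2 * v * bet Real.goldenRatio (Fib.a A) M + |(u : ℝ)|) * Real.goldenRatio ≤
        (2 * v * bet Real.goldenRatio (Fib.a A) M + |(u : ℝ)|) * (13 / 8) :=
      mul_le_mul_of_nonneg_left hφ17 (by positivity)
    nlinarith
  · intro M
    have e2 := hq M
    have hb := hbet M
    have hvb : 0 ≤ v * bet Real.goldenRatio (Fib.a A) M := by positivity
    have hua : 0 ≤ |(u : ℝ)| := abs_nonneg _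
    have hub : 0 ≤ |(u : ℝ)| * bet Real.goldenRatio (Fib.a A) M := by positivity
    nlinarith

end Pool.Agent.Helper9.PF
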