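import Pool.Agent.Helper9.PF.Basic
import Pool.Agent.Helper9.PF.Moment

/-!
PROJECT PF, module PF-04. Integers with prescribed values of `f`.

Proof. `Q' = Q * ∏ i ∈ I, ∏ j < m i, q i j`. The `q i j` are distinct primes (`hinj`) not dividing `Q` (`hQ`, `y < q i j`), so by the Chinese remainder theorem there is `a' < Q'` with
`a' ≡ a [MOD Q]` and `q i j ∣ a' + i` for `i ∈ I`, `j < m i` (e.g. induct over a finset of pairs, or `Nat.chineseRemainderOfFinset` / `Ideal` version; `(Nat.chineseRemainder ..)`).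
`Q' ≤ Q * Z ^ (I.card * u) ≤ Y / 16`, so `a' + V + Q' * (2 * Y) ≤ Y ^ 2`. `exists_good` (with `Q'`, `a'`) gives `n`; `N = a' + Q' * n`. For `i ≤ V` the primes `p ∈ A`, `y < p`, `p ∣ N + i` are:
at most `B₀` primes not dividing `Q'`; and primes `p ∣ Q'`, hence `p = q i' j` with `i' ∈ I`, `j < m i'` (`p ∣ Q` is impossible), `p ∣ N + i'`, `p ∣ N + i`, `|i - i'| ≤ V < p`, so `i = i'`.
So for `i ∈ I` these are exactly the `m i` primes `q i j`, `j < m i`, each contributing `e₀`; for `i ∉ I` there are none.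
-/

set_option autoImplicit false

namespace Pool.Agent.Helper9.PF

open Finset

private theorem crt (Q a : ℕ) (q : ℕ × ℕ → ℕ) (S : Finset (ℕ × ℕ))
    (hp : ∀ x ∈ S, (q x).Prime) (hQ : ∀ x ∈ S, ¬ q x ∣ Q)
    (hinj : ∀ x ∈ S, ∀ x' ∈ S, q x = q x' → x = x') :
    ∃ a', a' ≡ a [MOD Q] ∧ ∀ x ∈ S, q x ∣ a' + x.1 := by
  classical
  induction S using Finset.induction_on with
  | empty => exact ⟨a, Nat.ModEq.refl _, by simp⟩
  | insert x S hx ih =>
    obtain ⟨a₁, h1, h2⟩ := ih (fun z hz => hp z (mem_insert_of_mem hz))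
      (fun z hz => hQ z (mem_insert_of_mem hz))
      (fun z hz z' hz' => hinj z (mem_insert_of_mem hz) z' (mem_insert_of_mem hz'))
    have hpx : (q x).Prime := hp x (mem_insert_self _ _)
    have hco : Nat.Coprime (Q * ∏ z ∈ S, q z) (q x) := by
      apply Nat.Coprime.mul_left
      · exact ((Nat.Prime.coprime_iff_not_dvd hpx).mpr (hQ x (mem_insert_self _ _))).symm
      · apply Nat.Coprime.prod_left
        intro z hz
        rw [Nat.coprime_primes (hp z (mem_insert_of_mem hz)) hpx]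
        intro h
        have := hinj z (mem_insert_of_mem hz) x (mem_insert_self _ _) h
        exact hx (this ▸ hz)
    obtain ⟨a₂, h3, h4⟩ := Nat.chineseRemainder hco a₁ ((q x - 1) * x.1)
    refine ⟨a₂, (h3.of_mul_right _).trans h1, ?_⟩
    intro z hz
    rcases mem_insert.mp hz with rfl | hz
    · have h5 : (q z - 1) * z.1 + z.1 = q z * z.1 := by
        obtain ⟨k, hk⟩ := Nat.exists_eq_succ_of_ne_zero hpx.ne_zero
        rw [hk]
        simp only [Nat.succ_eq_add_one, Nat.add_sub_cancel]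
        ring
      have h6 := (Nat.ModEq.add_right z.1 h4)
      rw [h5] at h6
      exact (h6.dvd_iff dvd_rfl).mpr (dvd_mul_right _ _)
    · have h5 : a₂ ≡ a₁ [MOD q z] :=
        h3.of_dvd (dvd_mul_of_dvd_right (Finset.dvd_prod_of_mem q hz) _)
      exact ((h5.add_right z.1).dvd_iff dvd_rfl).mpr (h2 z hz)

theorem design (A : Set ℕ) (ε : ℕ → ℤ) (hε : ∀ p, |ε p| ≤ 1) (y Q V Y B₀ a u Z : ℕ) (e₀ : ℤ)
    (I : Finset ℕ) (q : ℕ → ℕ → ℕ) (hI : ∀ i ∈ I, i ≤ V) (hQ0 : 0 < Q)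
    (hQ : ∀ p, p.Prime → p ∣ Q → p ≤ y)
    (hq : ∀ i ∈ I, ∀ j < u, (q i j).Prime ∧ q i j ∈ A ∧ y < q i j ∧ V < q i j ∧ q i j ≤ Z ∧
      ε (q i j) = e₀)
    (hinj : ∀ i ∈ I, ∀ i' ∈ I, ∀ j < u, ∀ j' < u, q i j = q i' j' → i = i' ∧ j = j')
    (hZ : 1 ≤ Z) (hsize : 16 * (Q * Z ^ (I.card * u)) ≤ Y) (hV : V ≤ Y)
    (hB : 4 * ((V : ℝ) + 1) * (1 + Real.log Y) < 2 ^ (B₀ + 1))
    (m : ℕ → ℕ) (hm : ∀ i, m i ≤ u) :
    ∃ N, N ≡ a [MOD Q] ∧ Y ≤ N ∧ N + V ≤ Y ^ 2 ∧
      ∀ i ≤ V, |ff A ε y (N + i) - (if i ∈ I then e₀ * (m i : ℤ) else 0)| ≤ (B₀ : ℤ) := by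
  classical
  set S : Finset (ℕ × ℕ) := (I ×ˢ range u).filter (fun x => x.2 < m x.1) with hS
  have hSm : ∀ x, x ∈ S ↔ x.1 ∈ I ∧ x.2 < m x.1 := by
    intro x
    rw [hS, mem_filter, mem_product, mem_range]
    constructor
    · rintro ⟨⟨h1, -⟩, h2⟩
      exact ⟨h1, h2⟩
    · rintro ⟨h1, h2⟩
      exact ⟨⟨h1, h2.trans_le (hm _)⟩, h2⟩
  have hqS : ∀ x ∈ S, (q x.1 x.2).Prime ∧ q x.1 x.2 ∈ A ∧ y < q x.1 x.2 ∧ V < q x.1 x.2 ∧
      q x.1 x.2 ≤ Z ∧ ε (q x.1 x.2) = e₀ := by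
    intro x hx
    obtain ⟨h1, h2⟩ := (hSm x).mp hx
    exact hq _ h1 _ (h2.trans_le (hm _))
  set P : ℕ := ∏ x ∈ S, q x.1 x.2 with hP
  set Q' : ℕ := Q * P with hQ'
  have hP0 : 0 < P := Finset.prod_pos fun x hx => (hqS x hx).1.pos
  have hQ'0 : 0 < Q' := Nat.mul_pos hQ0 hP0
  have hPle : P ≤ Z ^ (I.card * u) := by
    have h1 : P ≤ Z ^ S.card := Finset.prod_le_pow_card _ _ _ fun x hx => (hqS x hx).2.2.2.2.1
    refine h1.trans (Nat.pow_le_pow_right hZ ?_)
    refine (Finset.card_filter_le _ _).trans ?_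
    rw [card_product, card_range]
  have hQ'Y : 16 * Q' ≤ Y := by
    refine le_trans ?_ hsize
    exact Nat.mul_le_mul_left _ (Nat.mul_le_mul_left _ hPle)
  obtain ⟨a₁, ha1, ha2⟩ := crt Q a (fun x => q x.1 x.2) S (fun x hx => (hqS x hx).1)
    (fun x hx hd => by
      have h1 := hQ _ (hqS x hx).1 hd
      have h2 := (hqS x hx).2.2.1
      omega)
    (fun x hx x' hx' h => by
      obtain ⟨h1, h2⟩ := (hSm x).mp hx
      obtain ⟨h3, h4⟩ := (hSm x').mp hx'
      have := hinj _ h1 _ h3 _ (h2.trans_le (hm _)) _ (h4.trans_le (hm _)) h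
      exact Prod.ext this.1 this.2)
  have ha' : a₁ % Q' < Q' := Nat.mod_lt _ hQ'0
  have hmod : a₁ % Q' ≡ a₁ [MOD Q'] := Nat.mod_modEq _ _
  have hY1 : 1 ≤ Y := by omega
  have hsz : a₁ % Q' + V + Q' * (2 * Y) ≤ Y ^ 2 := by
    have h1 : 16 * Y ≤ Y * Y := Nat.mul_le_mul_right _ (by omega)
    have h2 : 16 * Q' * Y ≤ Y * Y := Nat.mul_le_mul_right _ hQ'Y
    nlinarith
  obtain ⟨n, hn, hgood⟩ := exists_good Q' Y (a₁ % Q') V B₀ hQ'0 hY1 hsz hB
  rw [mem_Ico] at hn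
  set N := a₁ % Q' + Q' * n with hN
  have hNmod : N ≡ a₁ [MOD Q'] := by
    have : N ≡ a₁ % Q' + 0 [MOD Q'] := by
      rw [hN]
      exact Nat.ModEq.add_left _ ((Nat.modEq_zero_iff_dvd).mpr (dvd_mul_right _ _))
    rw [add_zero] at this
    exact this.trans hmod
  have hQY : Y ≤ N := by
    have : 1 * n ≤ Q' * n := Nat.mul_le_mul_right _ hQ'0
    omega
  have hNV : N + V ≤ Y ^ 2 := by
    have : Q' * n ≤ Q' * (2 * Y) := Nat.mul_le_mul_left _ hn.2.le
    omega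
  refine ⟨N, (hNmod.of_mul_right _).trans ha1, hQY, hNV, ?_⟩
  intro i hi
  have hdvd : ∀ x ∈ S, q x.1 x.2 ∣ N + x.1 := by
    intro x hx
    have h1 : N ≡ a₁ [MOD q x.1 x.2] :=
      hNmod.of_dvd (dvd_mul_of_dvd_right
        (Finset.dvd_prod_of_mem (fun x : ℕ × ℕ => q x.1 x.2) hx) _)
    exact ((h1.add_right x.1).dvd_iff dvd_rfl).mpr (ha2 x hx)
  have hN0 : N + i ≠ 0 := by omega
  -- the part of the primes dividing `Q'`
  have hset : ((N + i).primeFactors.filter (fun p => p ∈ A ∧ y < p)).filter (fun p => p ∣ Q') =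
      if i ∈ I then (range (m i)).image (q i) else ∅ := by
    ext p
    rw [mem_filter, mem_filter, Nat.mem_primeFactors]
    constructor
    · rintro ⟨⟨⟨hp, hpN, -⟩, hpA, hyp⟩, hpQ⟩
      have hpP : p ∣ P := by
        rcases (Nat.Prime.dvd_mul hp).mp hpQ with h | h
        · have := hQ p hp h
          omega
        · exact h
      obtain ⟨x, hx, hpx⟩ := (Prime.dvd_finsetProd_iff hp.prime _).mp hpP
      have hpe : p = q x.1 x.2 := (Nat.prime_dvd_prime_iff_eq hp (hqS x hx).1).mp hpx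
      obtain ⟨hx1, hx2⟩ := (hSm x).mp hx
      have hV1 := hI _ hx1
      have hV2 := (hqS x hx).2.2.2.1
      have hd := hdvd x hx
      rw [← hpe] at hd hV2
      have hix : i = x.1 := by
        have h1 : i ≡ x.1 [MOD p] := by
          have h2 : N + i ≡ N + x.1 [MOD p] :=
            ((Nat.modEq_zero_iff_dvd).mpr hpN).trans ((Nat.modEq_zero_iff_dvd).mpr hd).symm
          exact Nat.ModEq.add_left_cancel' N h2
        exact Nat.ModEq.eq_of_lt_of_lt h1 (by omega) (by omega)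
      rw [hix, if_pos hx1, mem_image]
      exact ⟨x.2, mem_range.mpr hx2, hpe.symm⟩
    · intro hp
      split_ifs at hp with hiI
      · obtain ⟨j, hj, rfl⟩ := mem_image.mp hp
        rw [mem_range] at hj
        have hx : (i, j) ∈ S := (hSm _).mpr ⟨hiI, hj⟩
        have h1 := hqS _ hx
        have h2 := hdvd _ hx
        refine ⟨⟨⟨h1.1, h2, hN0⟩, h1.2.1, h1.2.2.1⟩, ?_⟩
        exact dvd_mul_of_dvd_right (Finset.dvd_prod_of_mem (fun x : ℕ × ℕ => q x.1 x.2) hx) _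
      · simp at hp
  have hsum : ∑ p ∈ ((N + i).primeFactors.filter (fun p => p ∈ A ∧ y < p)).filter
      (fun p => p ∣ Q'), ε p = if i ∈ I then e₀ * (m i : ℤ) else 0 := by
    rw [hset]
    split_ifs with hiI
    · rw [Finset.sum_image]
      · rw [Finset.sum_congr rfl (fun j hj => (hq i hiI j ((mem_range.mp hj).trans_le (hm i))).2.2.2.2.2)]
        rw [Finset.sum_const, card_range, nsmul_eq_mul, mul_comm]
      · intro j hj j' hj' h
        have hj1 := mem_range.mp (Finset.mem_coe.mp hj)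
        have hj2 := mem_range.mp (Finset.mem_coe.mp hj')
        exact (hinj i hiI i hiI j (hj1.trans_le (hm i)) j' (hj2.trans_le (hm i)) h).2
    · simp
  have hff : ff A ε y (N + i) = (if i ∈ I then e₀ * (m i : ℤ) else 0) +
      ∑ p ∈ ((N + i).primeFactors.filter (fun p => p ∈ A ∧ y < p)).filter
      (fun p => ¬ p ∣ Q'), ε p := by
    rw [← hsum, Finset.sum_filter_add_sum_filter_not]
    rfl
  rw [hff, add_sub_cancel_left]
  refine (Finset.abs_sum_le_sum_abs _ _).trans ?_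
  refine (Finset.sum_le_card_nsmul _ _ 1 (fun p _ => hε p)).trans ?_
  rw [nsmul_eq_mul, mul_one]
  have h1 := hgood i hi
  have h2 : (((N + i).primeFactors.filter (fun p => p ∈ A ∧ y < p)).filter
      (fun p => ¬ p ∣ Q')).card ≤ ((N + i).primeFactors.filter (fun p => ¬ p ∣ Q')).card := by
    apply Finset.card_le_card
    intro p hp
    rw [mem_filter, mem_filter] at hp
    exact mem_filter.mpr ⟨hp.1.1, hp.2⟩
  exact_mod_cast h2.trans h1

end Pool.Agent.Helper9.PF
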