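import Pool.Agent.Helper9.PF.Defs

/-!
PROJECT PF, module PF-01. Simple facts about `ff`.

* `ff_mul`: `(d * M).primeFactors = d.primeFactors ∪ M.primeFactors` and the primes dividing `d` are `≤ y`, so they are not counted.
* `abs_ff_le_card`: triangle inequality.
* `abs_ff_le_log`: the number of prime factors of `m ≥ 1` is at most `log_2 m` (`2 ^ card ≤ ∏ p ≤ m`: `Nat.prod_primeFactors_dvd`, `Finset.pow_card_le_prod` or `Finset.prod_le_prod`);
  `m = 0` has no prime factors in Mathlib.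
* `abs_aa_le`: `|θ m| ≤ 1`.
* `i0_*`: `Nat.sInf_mem` for the nonempty set `{i | E < i ∧ d ∣ a + i}`; one of the `d` consecutive numbers `E + 1, ..., E + d` is in it.
-/

set_option autoImplicit false

namespace Pool.Agent.Helper9.PF

open Finset

theorem ff_mul (A : Set ℕ) (ε : ℕ → ℤ) (y : ℕ) {d M : ℕ} (hd : ∀ p, p.Prime → p ∣ d → p ≤ y)
    (hd0 : d ≠ 0) (hM : M ≠ 0) : ff A ε y (d * M) = ff A ε y M := by
  unfold ff
  rw [Nat.primeFactors_mul hd0 hM]
  congr 1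
  ext p
  simp only [mem_filter, mem_union]
  constructor
  · rintro ⟨h1 | h1, h2, h3⟩
    · have := hd p (Nat.prime_of_mem_primeFactors h1) (Nat.dvd_of_mem_primeFactors h1)
      omega
    · exact ⟨h1, h2, h3⟩
  · rintro ⟨h1, h2⟩
    exact ⟨Or.inr h1, h2⟩

open Classical in
theorem abs_ff_le_card (A : Set ℕ) (ε : ℕ → ℤ) (hε : ∀ p, |ε p| ≤ 1) (y m : ℕ) :
    |ff A ε y m| ≤ ((m.primeFactors.filter (fun p => p ∈ A ∧ y < p)).card : ℤ) := by
  unfold ff
  refine (abs_sum_le_sum_abs _ _).trans ?_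
  refine (sum_le_sum (fun p _ => hε p)).trans ?_
  rw [sum_const, nsmul_eq_mul, mul_one]

theorem abs_ff_le_log (A : Set ℕ) (ε : ℕ → ℤ) (hε : ∀ p, |ε p| ≤ 1) (y m : ℕ) :
    |ff A ε y m| ≤ (Nat.log 2 m : ℤ) := by
  classical
  refine (abs_ff_le_card A ε hε y m).trans ?_
  norm_cast
  refine (card_le_card (filter_subset _ _)).trans ?_
  rcases Nat.eq_zero_or_pos m with rfl | hm
  · simp
  · refine Nat.le_log_of_pow_le (by norm_num) ?_
    calc 2 ^ m.primeFactors.card = ∏ p ∈ m.primeFactors, 2 := by rw [prod_const]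
      _ ≤ ∏ p ∈ m.primeFactors, p := prod_le_prod (fun _ _ => by norm_num)
          (fun p hp => (Nat.prime_of_mem_primeFactors hp).two_le)
      _ ≤ m := Nat.le_of_dvd hm (Nat.prod_primeFactors_dvd m)

theorem abs_aa_le (A : Set ℕ) (ε θ : ℕ → ℤ) (hθ : ∀ m, |θ m| ≤ 1) (y m : ℕ) :
    |aa A ε θ y m| ≤ |ff A ε y m| := by
  unfold aa
  rw [abs_mul]
  calc |θ m| * |ff A ε y m| ≤ 1 * |ff A ε y m| :=
        mul_le_mul_of_nonneg_right (hθ m) (abs_nonneg _)
    _ = |ff A ε y m| := one_mul _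

/-- a number of the set in the window of length `d` -/
private theorem basic_ex (a E : ℕ) {d : ℕ} (hd : 0 < d) :
    ∃ i, (E < i ∧ d ∣ a + i) ∧ i ≤ E + d := by
  have h1 := Nat.mod_lt (a + E) hd
  have h2 := Nat.div_add_mod (a + E) d
  refine ⟨E + (d - (a + E) % d), ⟨by omega, (a + E) / d + 1, ?_⟩, by omega⟩
  rw [mul_add, mul_one]
  omega

private theorem basic_mem (a E : ℕ) {d : ℕ} (hd : 0 < d) :
    i0 a E d ∈ {i | E < i ∧ d ∣ a + i} := by
  obtain ⟨i, hi, -⟩ := basic_ex a E hd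
  exact Nat.sInf_mem ⟨i, hi⟩

theorem i0_gt (a E : ℕ) {d : ℕ} (hd : 0 < d) : E < i0 a E d := (basic_mem a E hd).1

theorem i0_dvd (a E : ℕ) {d : ℕ} (hd : 0 < d) : d ∣ a + i0 a E d := (basic_mem a E hd).2

theorem i0_le (a E : ℕ) {d : ℕ} (hd : 0 < d) : i0 a E d ≤ E + d := by
  obtain ⟨i, hi, hi2⟩ := basic_ex a E hd
  exact (Nat.sInf_le hi).trans hi2

theorem i0_min (a E : ℕ) {d i : ℕ} (hi : E < i) (hdi : d ∣ a + i) : i0 a E d ≤ i :=
  Nat.sInf_le ⟨hi, hdi⟩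

end Pool.Agent.Helper9.PF
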