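import Pool.Agent.Helper9.PF.Basic
import Pool.Agent.Helper9.PF.Bet

/-!
PROJECT PF, module PF-09. The bound for `bet` at the places of the chains.

Proof. `M = (N + i) / d`, so `d M = N + i`, `M ≥ 1`, `M ≤ N + i ≤ N + V` and `log_2 M ≤ lam ^ H`. Apply `bet_le` (`abs_aa_le`, `abs_ff_le_log` give `ha`). Let `M ≤ t + H`, `t ≤ M + H`. Then `d t = N + i'` with
`i' = i + d t - d M` (integers), `i' ≥ i - D H ≥ E - D - D H ≥ 0` and `i' ≤ E + W + D H ≤ V`. `t ≥ 1` because `N ≥ 1`. So `|aa t| ≤ |ff t| = |ff (d t)| = |ff (N + i')| ≤ B` (`ff_mul`).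
-/

set_option autoImplicit false

namespace Pool.Agent.Helper9.PF

open Finset

theorem bet_chain {lam : ℝ} (hlam : 3 / 2 ≤ lam) {A : Set ℕ} {ε θ : ℕ → ℤ} (hε : ∀ p, |ε p| ≤ 1)
    (hθ : ∀ m, |θ m| ≤ 1) {y Q D E W H B N d i : ℕ} (hQ : ∀ p, p.Prime → p ∣ Q → p ≤ y)
    (hE : E = D * (H + 2)) (hN : 1 ≤ N)
    (hlog : (Nat.log 2 (N + (2 * E + W)) : ℝ) ≤ lam ^ H)
    (hB : ∀ i ≤ 2 * E + W, |ff A ε y (N + i)| ≤ (B : ℤ))
    (hd0 : 0 < d) (hdQ : d ∣ Q) (hdD : d ≤ D) (hdi : d ∣ N + i) (hi : E ≤ i + D)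
    (hi2 : i ≤ E + W) :
    bet lam (aa A ε θ y) ((N + i) / d) ≤ 5 * (B : ℝ) + 20 := by
  obtain ⟨M, hM⟩ : ∃ M, M = (N + i) / d := ⟨_, rfl⟩
  rw [← hM]
  have hdM : d * M = N + i := by rw [hM]; exact Nat.mul_div_cancel' hdi
  have hM1 : 1 ≤ M := by
    rcases Nat.eq_zero_or_pos M with h0 | h0
    · rw [h0, mul_zero] at hdM
      omega
    · exact h0
  have hMN : M ≤ N + i := by
    rw [hM]
    exact Nat.div_le_self _ _
  refine bet_le lam hlam (aa A ε θ y)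
    (fun t => (abs_aa_le A ε θ hθ y t).trans (abs_ff_le_log A ε hε y t)) M H B hM1 ?_ ?_
  · refine le_trans ?_ hlog
    have h1 : Nat.log 2 M ≤ Nat.log 2 (N + (2 * E + W)) := Nat.log_mono_right (by omega)
    exact_mod_cast h1
  · intro t ht1 ht2
    have e1 : d * M ≤ d * t + d * H := by
      have := Nat.mul_le_mul_left d ht1
      rwa [mul_add] at this
    have e2 : d * t ≤ d * M + d * H := by
      have := Nat.mul_le_mul_left d ht2
      rwa [mul_add] at this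
    have e3 : d * H ≤ D * H := Nat.mul_le_mul_right H hdD
    have e4 : D * (H + 2) = D * H + 2 * D := by ring
    rw [e4] at hE
    have e5 : N ≤ d * t := by omega
    have e6 : d * t ≤ N + (2 * E + W) := by omega
    have ht0 : t ≠ 0 := by
      rintro rfl
      rw [mul_zero] at e5
      omega
    obtain ⟨i', hi'⟩ : ∃ i', d * t = N + i' := ⟨d * t - N, by omega⟩
    have h1 := abs_aa_le A ε θ hθ y t
    have h2 := ff_mul A ε y (d := d) (M := t)
      (fun p hp hpd => hQ p hp (hpd.trans hdQ)) hd0.ne' ht0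
    rw [← h2, hi'] at h1
    exact h1.trans (hB i' (by omega))

end Pool.Agent.Helper9.PF
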