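import Pool.Agent.Helper9.PF.Unique

/-!
PROJECT PF, module PF-11. The number of admissible integers.

Proof. Map `N ∈ 𝒩` to the pair of the function `i ↦ ff (N + i)` on `Bad` (values in `[-B, B]`, so at most `(2 B + 1) ^ |Bad|` possibilities) and the function `d ↦ dyn.w ((N + i0 a E d)/d - 1)` on the divisors
`d ≤ D` of `Q` (at most `D`), both coordinates of which are integers in `[-K₁, K₁]` by `dyn.bd1`, `dyn.bd2`, `hst`, `hK` (at most `((2 K₁ + 1)^2) ^ D` possibilities). By `unique` and `hinj` the map is injective on `𝒩`.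
(Use `Finset.card_le_card_of_injOn` into a product of two `Fintype.piFinset` / `Finset.pi`, over the subtypes or `Fin`.)
-/

set_option autoImplicit false

namespace Pool.Agent.Helper9.PF

open Finset

theorem count {lam K : ℝ} (hlam : 3 / 2 ≤ lam) {A : Set ℕ} {ε θ : ℕ → ℤ} {y : ℕ}
    (hθ : Theta θ) (dyn : Dyn lam (aa A ε θ y) K) {Q D G E W a B K₁ : ℕ} {R : ℝ}
    (hQ : ∀ p, p.Prime → p ∣ Q → p ≤ y) (hQ0 : 0 < Q) (hQodd : Odd Q)
    (hG : 2 * R < lam ^ G) (hK0 : 0 ≤ K) (hK : K * (1 + R) ≤ K₁) (𝒩 : Finset ℕ)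
    (h1 : ∀ N ∈ 𝒩, 1 ≤ N) (hmod : ∀ N ∈ 𝒩, N ≡ a [MOD 4 * Q])
    (hB : ∀ N ∈ 𝒩, ∀ i, E < i → i ≤ E + W → |ff A ε y (N + i)| ≤ (B : ℤ))
    (hR : ∀ N ∈ 𝒩, ∀ i d, E < i → i ≤ E + W → 0 < d → d ∣ Q → d ≤ D → d ∣ N + i →
      bet lam (aa A ε θ y) ((N + i) / d) ≤ R)
    (hst : ∀ N ∈ 𝒩, ∀ d, 0 < d → d ∣ Q → d ≤ D →
      bet lam (aa A ε θ y) ((N + i0 a E d) / d - 1) ≤ R)
    (hinj : ∀ N ∈ 𝒩, ∀ N' ∈ 𝒩, (∀ i, E < i → i ≤ E + W → θ (a + i) ≠ 0 →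
      ff A ε y (N + i) = ff A ε y (N' + i)) → N = N') :
    𝒩.card ≤ (2 * B + 1) ^ (Bad Q D G E W a).card * ((2 * K₁ + 1) ^ 2) ^ D := by
  classical
  obtain ⟨S, hS⟩ : ∃ S : Finset ℕ, S = (Icc 1 D).filter (fun d => d ∣ Q) := ⟨_, rfl⟩
  have hSm : ∀ d, d ∈ S ↔ (1 ≤ d ∧ d ≤ D) ∧ d ∣ Q := by
    intro d
    rw [hS, mem_filter, mem_Icc]
  have hScard : S.card ≤ D := by
    rw [hS]
    refine (card_le_card (filter_subset _ _)).trans ?_
    rw [Nat.card_Icc]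
    omega
  let g : ℕ → ((Bad Q D G E W a) → ℤ) × (S → ℤ × ℤ) := fun N =>
    (fun i => ff A ε y (N + (i : ℕ)), fun d => dyn.w ((N + i0 a E (d : ℕ)) / (d : ℕ) - 1))
  let T : Finset (((Bad Q D G E W a) → ℤ) × (S → ℤ × ℤ)) :=
    (Fintype.piFinset fun _ => Icc (-(B : ℤ)) B) ×ˢ
      (Fintype.piFinset fun _ => Icc (-(K₁ : ℤ)) K₁ ×ˢ Icc (-(K₁ : ℤ)) K₁)
  have hI : ∀ k : ℕ, (Icc (-(k : ℤ)) k).card = 2 * k + 1 := by
    intro k
    rw [Int.card_Icc]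
    omega
  have hT : T.card = (2 * B + 1) ^ (Bad Q D G E W a).card * ((2 * K₁ + 1) ^ 2) ^ S.card := by
    show ((Fintype.piFinset fun _ : (Bad Q D G E W a) => Icc (-(B : ℤ)) B) ×ˢ
      (Fintype.piFinset fun _ : S => Icc (-(K₁ : ℤ)) K₁ ×ˢ Icc (-(K₁ : ℤ)) K₁)).card = _
    rw [card_product, Fintype.card_piFinset, Fintype.card_piFinset, prod_const, prod_const,
      card_product, hI, hI, card_univ, card_univ, Fintype.card_coe, Fintype.card_coe, ← sq]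
  have hmaps : ∀ N ∈ 𝒩, g N ∈ T := by
    intro N hN
    refine mem_product.2 ⟨Fintype.mem_piFinset.2 fun i => ?_, Fintype.mem_piFinset.2 fun d => ?_⟩
    · rw [mem_Icc, ← abs_le]
      have hi : (i : ℕ) ∈ Bad Q D G E W a := i.2
      unfold Bad at hi
      rw [mem_filter, mem_Ioc] at hi
      exact hB N hN i hi.1.1 hi.1.2
    · obtain ⟨⟨hd1, hd2⟩, hd3⟩ := (hSm d).1 d.2
      have hb := hst N hN d hd1 hd3 hd2
      have hb2 : K * (1 + bet lam (aa A ε θ y) ((N + i0 a E (d : ℕ)) / (d : ℕ) - 1)) ≤ K₁ :=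
        (mul_le_mul_of_nonneg_left (by linarith) hK0).trans hK
      have e1 := (dyn.bd1 ((N + i0 a E (d : ℕ)) / (d : ℕ) - 1)).trans hb2
      have e2 := (dyn.bd2 ((N + i0 a E (d : ℕ)) / (d : ℕ) - 1)).trans hb2
      rw [mem_product, mem_Icc, mem_Icc, ← abs_le, ← abs_le]
      exact ⟨by exact_mod_cast e1, by exact_mod_cast e2⟩
  have hinj' : Set.InjOn g (𝒩 : Set ℕ) := by
    intro N hN N' hN' heq
    rw [mem_coe] at hN hN'
    refine hinj N hN N' hN' ?_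
    refine unique hlam hθ dyn hQ hQ0 hQodd hG (h1 N hN) (h1 N' hN') (hmod N hN) (hmod N' hN')
      (hR N hN) (hR N' hN') ?_ ?_
    · intro d hd0 hdQ hdD
      have hd : d ∈ S := (hSm d).2 ⟨⟨hd0, hdD⟩, hdQ⟩
      exact congrFun (congrArg Prod.snd heq) ⟨d, hd⟩
    · intro i hi _
      exact congrFun (congrArg Prod.fst heq) ⟨i, hi⟩
  refine (card_le_card_of_injOn g hmaps hinj').trans ?_
  rw [hT]
  exact Nat.mul_le_mul_left _ (Nat.pow_le_pow_right (by positivity) hScard)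

end Pool.Agent.Helper9.PF
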