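import Pool.Agent.Helper9.PF.ParamDefs

/-!
PROJECT PF, module PF-13B. Numerical inequalities between the parameters, for large `L`.

Everything is a statement about exponents of 2. `eta = 8192 L^2`, `del = 64 (1 + eta) eta <= 2^40 L^4`.
* `p4`: `VV <= 2^(2 del + 4)`, `log Y <= 2^(2^(L-1))`, so the left side is `<= 2^(2 del + 8 + 2^(L-1)) < 2^(2^L + 1)`: `2 del + 7 < 2^(L-1)` for large `L`.
* `p6`: `M <= Y^2 = 2^(2 * 2^(2^(L-1)))`, so `log_2 M <= 2^(2^(L-1) + 1)`, and `(3/2)^(2^L) = (9/4)^(2^(L-1))`, `(9/8)^(2^(L-1)) >= 2` for `L >= 4`.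
* `p7`: all three are `<= 2^(4 del)`, and `4 del <= 2^42 L^4 <= L^8` for `L >= 2^11`.
The eventual inequalities like `n^8 <= 2^(n-2)` can be obtained from `Filter.Eventually` facts (`tendsto_pow_const_div_const_pow_of_one_lt`, `Nat.cast` / `isLittleO_pow_const_const_pow_of_one_lt`) or by induction.
-/

set_option autoImplicit false

namespace Pool.Agent.Helper9.PF

open Filter

private theorem del_le {L : ℕ} (hL : 1 ≤ L) : del L ≤ 2 ^ 33 * L ^ 4 := by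
  unfold del eta
  have h1 : 1 ≤ L ^ 2 := Nat.one_le_pow _ _ hL
  have h2 : 1 + 8192 * L ^ 2 ≤ 8193 * L ^ 2 := by omega
  calc 64 * (1 + 8192 * L ^ 2) * (8192 * L ^ 2) ≤ 64 * (8193 * L ^ 2) * (8192 * L ^ 2) := by
        gcongr
    _ = 4295491584 * L ^ 4 := by ring
    _ ≤ 2 ^ 33 * L ^ 4 := Nat.mul_le_mul_right _ (by norm_num)

private theorem le_del {L : ℕ} (hL : 1 ≤ L) : L ≤ del L := by
  unfold del eta
  have h1 : L ≤ L ^ 2 := by nlinarith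
  have h2 : 1 ≤ 64 * (1 + 8192 * L ^ 2) := by omega
  calc L ≤ 1 * (8192 * L ^ 2) := by omega
    _ ≤ 64 * (1 + 8192 * L ^ 2) * (8192 * L ^ 2) := Nat.mul_le_mul_right _ h2

private theorem eta_le_del (L : ℕ) : eta L ≤ del L := by
  unfold del
  calc eta L = 1 * eta L := (one_mul _).symm
    _ ≤ 64 * (1 + eta L) * eta L := Nat.mul_le_mul_right _ (by omega)

private theorem quart_lt {L : ℕ} (hL : 512 ≤ L) : 2 ^ 36 * L ^ 4 < 2 ^ (L - 1) := by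
  induction L, hL using Nat.le_induction with
  | base =>
    rw [show (512 : ℕ) = 2 ^ 9 by norm_num, ← pow_mul, ← pow_add]
    exact Nat.pow_lt_pow_right (by norm_num) (by norm_num)
  | succ L hL ih =>
    have h1 : (L + 1) ^ 4 ≤ 2 * L ^ 4 := by
      have h2 : L ^ 3 * 512 ≤ L ^ 3 * L := Nat.mul_le_mul_left _ hL
      have h3 : L ^ 2 * 1 ≤ L ^ 2 * L := Nat.mul_le_mul_left _ (by omega)
      have h4 : L * 1 ≤ L * L := Nat.mul_le_mul_left _ (by omega)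
      have h5 : (L + 1) ^ 4 = L ^ 3 * L + 4 * L ^ 3 + 6 * L ^ 2 + 4 * L + 1 := by ring
      have h6 : L ^ 4 = L ^ 3 * L := by ring
      have h7 : L ^ 3 = L ^ 2 * L := by ring
      have h8 : L ^ 2 = L * L := by ring
      rw [h5, h6]
      omega
    calc 2 ^ 36 * (L + 1) ^ 4 ≤ 2 ^ 36 * (2 * L ^ 4) := Nat.mul_le_mul_left _ h1
      _ = 2 * (2 ^ 36 * L ^ 4) := by ring
      _ < 2 * 2 ^ (L - 1) := by omega
      _ = 2 ^ (L + 1 - 1) := by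
        rw [← pow_succ']
        congr 1
        omega

private theorem VV_le {L : ℕ} (hL : 1 ≤ L) : VV L ≤ 2 ^ (2 * del L + 3) := by
  unfold VV EE WW DD
  have h1 : 2 ^ L + 2 ≤ 2 ^ (L + 1) := by
    have h2 : 2 ^ 1 ≤ 2 ^ L := Nat.pow_le_pow_right (by norm_num) hL
    rw [pow_succ]
    omega
  have h3 : 2 ^ (L + 1) ≤ 2 ^ (del L + 1) :=
    Nat.pow_le_pow_right (by norm_num) (by have := le_del hL; omega)
  calc 2 * (2 ^ del L * (2 ^ L + 2)) + 4 * (2 ^ del L) ^ 2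
      ≤ 2 * (2 ^ del L * 2 ^ (del L + 1)) + 4 * (2 ^ del L) ^ 2 := by
        gcongr
        exact h1.trans h3
    _ = 2 ^ (2 * del L + 3) := by ring

theorem p4 : ∀ᶠ L : ℕ in atTop,
    4 * ((VV L : ℝ) + 1) * (1 + Real.log (YY L)) < 2 ^ (2 ^ L + 1) := by
  filter_upwards [eventually_ge_atTop 512] with L hL
  have hL1 : 1 ≤ L := by omega
  have h1 : (VV L : ℝ) + 1 ≤ 2 ^ (2 * del L + 4) := by
    have h2 := VV_le hL1
    have h3 : 1 ≤ 2 ^ (2 * del L + 3) := Nat.one_le_two_pow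
    have h4 : VV L + 1 ≤ 2 ^ (2 * del L + 4) := by
      rw [pow_succ 2 (2 * del L + 3)]
      omega
    exact_mod_cast h4
  have h5 : 1 + Real.log (YY L) ≤ 2 ^ (2 ^ (L - 1) + 1) := by
    unfold YY
    push_cast
    rw [Real.log_pow, pow_succ]
    have h6 : Real.log 2 ≤ 1 := by
      have := Real.log_two_lt_d9
      linarith
    have h7 : (1 : ℝ) ≤ 2 ^ 2 ^ (L - 1) := one_le_pow₀ (by norm_num)
    push_cast
    nlinarith
  have h8 : 2 * del L + 7 + 2 ^ (L - 1) < 2 ^ L + 1 := by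
    have h9 := del_le hL1
    have h10 := quart_lt hL
    have h11 : 1 ≤ L ^ 4 := Nat.one_le_pow _ _ hL1
    have h12 : 2 ^ L = 2 * 2 ^ (L - 1) := by
      rw [← pow_succ']
      congr 1
      omega
    have h13 : 2 * (2 ^ 33 * L ^ 4) + 7 ≤ 2 ^ 36 * L ^ 4 := by
      have h14 : 2 ^ 36 * L ^ 4 = 2 * (2 ^ 33 * L ^ 4) + 51539607552 * L ^ 4 := by ring
      rw [h14]
      omega
    omega
  have hnn : 0 ≤ 1 + Real.log (YY L) := by
    have : 0 ≤ Real.log (YY L) := Real.log_natCast_nonneg _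
    linarith
  calc 4 * ((VV L : ℝ) + 1) * (1 + Real.log (YY L))
      ≤ 4 * 2 ^ (2 * del L + 4) * 2 ^ (2 ^ (L - 1) + 1) := by
        gcongr
    _ = 2 ^ (2 * del L + 7 + 2 ^ (L - 1)) := by
        have h15 : (2 : ℝ) ^ (2 + (2 * del L + 4) + (2 ^ (L - 1) + 1))
            = 2 ^ 2 * 2 ^ (2 * del L + 4) * 2 ^ (2 ^ (L - 1) + 1) := by
          rw [pow_add, pow_add]
        rw [show 2 * del L + 7 + 2 ^ (L - 1) = 2 + (2 * del L + 4) + (2 ^ (L - 1) + 1) by ring,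
          h15, show (2 : ℝ) ^ 2 = 4 by norm_num]
    _ < 2 ^ (2 ^ L + 1) := pow_lt_pow_right₀ (by norm_num) h8

theorem p6 : ∀ᶠ L : ℕ in atTop, ∀ lam : ℝ, 3 / 2 ≤ lam → ∀ M ≤ YY L ^ 2,
    (Nat.log 2 M : ℝ) ≤ lam ^ (2 ^ L) := by
  filter_upwards [eventually_ge_atTop 4] with L hL lam hlam M hM
  have h1 : Nat.log 2 M ≤ 2 * 2 ^ (2 ^ (L - 1)) := by
    have h2 : Nat.log 2 M ≤ Nat.log 2 (YY L ^ 2) := Nat.log_mono_right hM
    unfold YY at h2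
    rw [← pow_mul, Nat.log_pow (by norm_num)] at h2
    rw [mul_comm]
    exact h2
  have h3 : 2 ^ L = 2 * 2 ^ (L - 1) := by
    rw [← pow_succ']
    congr 1
    omega
  have h4 : 8 ≤ 2 ^ (L - 1) := by
    calc 8 = 2 ^ 3 := by norm_num
      _ ≤ 2 ^ (L - 1) := Nat.pow_le_pow_right (by norm_num) (by omega)
  have h5 : (2 : ℝ) ≤ (9 / 8 : ℝ) ^ 2 ^ (L - 1) := by
    calc (2 : ℝ) ≤ (9 / 8 : ℝ) ^ 8 := by norm_num
      _ ≤ (9 / 8 : ℝ) ^ 2 ^ (L - 1) := pow_le_pow_right₀ (by norm_num) h4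
  calc (Nat.log 2 M : ℝ) ≤ 2 * 2 ^ (2 ^ (L - 1)) := by exact_mod_cast h1
    _ ≤ (9 / 8 : ℝ) ^ 2 ^ (L - 1) * 2 ^ (2 ^ (L - 1)) := by gcongr
    _ = (3 / 2 : ℝ) ^ (2 ^ L) := by
        rw [h3, pow_mul, ← mul_pow]
        norm_num
    _ ≤ lam ^ (2 ^ L) := by gcongr

theorem p7 : ∀ᶠ L : ℕ in atTop,
    WW L * uu L ≤ 2 ^ (L ^ 8) ∧ VV L ≤ 2 ^ (L ^ 8) ∧ yy L ≤ 2 ^ (L ^ 8) := by
  filter_upwards [eventually_ge_atTop 512] with L hL
  have hL1 : 1 ≤ L := by omega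
  have hkey : 2 * del L + 2 * L + 4 ≤ L ^ 8 := by
    have h1 := del_le hL1
    have h2 : (512 : ℕ) ^ 4 ≤ L ^ 4 := Nat.pow_le_pow_left hL 4
    have h3 : L ^ 8 = L ^ 4 * L ^ 4 := by ring
    have h4 : (512 : ℕ) ^ 4 * L ^ 4 ≤ L ^ 4 * L ^ 4 := Nat.mul_le_mul_right _ h2
    have h5 : L ≤ L ^ 4 := Nat.le_self_pow (by norm_num) L
    have h6 : (512 : ℕ) ^ 4 * L ^ 4 = 2 * (2 ^ 33 * L ^ 4) + 51539607552 * L ^ 4 := by ring
    rw [h3]
    omega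
  have hdel := le_del hL1
  refine ⟨?_, ?_, ?_⟩
  · have h1 : 2 * 2 ^ L + 1 ≤ 2 ^ (L + 2) := by
      have h2 : 1 ≤ 2 ^ L := Nat.one_le_two_pow
      rw [pow_add]
      omega
    calc WW L * uu L = 4 * (2 ^ del L) ^ 2 * ((2 * 2 ^ L + 1) * 2 ^ L) := rfl
      _ ≤ 4 * (2 ^ del L) ^ 2 * (2 ^ (L + 2) * 2 ^ L) := by gcongr
      _ = 2 ^ (2 * del L + 2 * L + 4) := by ring
      _ ≤ 2 ^ (L ^ 8) := Nat.pow_le_pow_right (by norm_num) hkey
  · exact (VV_le hL1).trans (Nat.pow_le_pow_right (by norm_num) (by omega))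
  · unfold yy
    have h := eta_le_del L
    exact Nat.pow_le_pow_right (by norm_num) (by omega)

end Pool.Agent.Helper9.PF
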