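import Pool.Agent.Helper9.PF.ParamDefs

/-!
PROJECT PF, module PF-13C. Numerical inequalities between the parameters, for large `L`.

Everything is a statement about exponents of 2. `eta = 8192 L^2`, `del = 64 (1 + eta) eta <= 2^40 L^4`.
* `p8`: `QQ G y` divides/is at most the primorial of `y`, `<= 4^y` (`primorial_le_4_pow`); `Z^(W u) <= 2^(2^(2^(L-2)) * 2^(L^8))`; so the left side is `<= 2^(6 + 2 y + 2^(2^(L-2) + L^8))` and the exponent is
  `<= 2^(2^(L-1))` for large `L` (`2 y <= 2^(eta + 1)`, `L^8 + 2 <= 2^(L-2)`, `2^(L-2) + L^8 + 1 <= 2^(L-1)`).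
The eventual inequalities like `n^8 <= 2^(n-2)` can be obtained from `Filter.Eventually` facts (`tendsto_pow_const_div_const_pow_of_one_lt`, `Nat.cast` / `isLittleO_pow_const_const_pow_of_one_lt`) or by induction.
-/

set_option autoImplicit false

namespace Pool.Agent.Helper9.PF

open Filter

private theorem ev5 : ∀ᶠ L : ℕ in atTop, L ^ 5 ≤ 2 ^ (L - 2) := by
  have h := tendsto_pow_const_div_const_pow_of_one_lt 5 (r := (2 : ℝ)) (by norm_num)
  have h2 : ∀ᶠ n : ℕ in atTop, (n : ℝ) ^ 5 / 2 ^ n < 1 / 4 :=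
    h.eventually (gt_mem_nhds (by norm_num))
  filter_upwards [h2, eventually_ge_atTop 2] with n hn h2n
  have hp : (0 : ℝ) < 2 ^ n := by positivity
  rw [div_lt_iff₀ hp] at hn
  obtain ⟨m, rfl⟩ := Nat.exists_eq_add_of_le' h2n
  have h3 : m + 2 - 2 = m := by omega
  rw [h3]
  have h4 : (((m + 2 : ℕ) : ℝ)) ^ 5 ≤ 2 ^ m := by
    have h5 : (2 : ℝ) ^ (m + 2) = 4 * 2 ^ m := by ring
    rw [h5] at hn
    linarith
  exact_mod_cast h4

private theorem QQ_le (G y : ℕ) : QQ G y ≤ 4 ^ y := by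
  refine le_trans ?_ (primorial_le_four_pow y)
  unfold QQ primorial
  refine Finset.prod_le_prod_of_subset_of_one_le' ?_ ?_
  · intro p hp
    rw [Finset.mem_filter, Finset.mem_Ioc] at hp
    rw [Finset.mem_filter, Finset.mem_range]
    exact ⟨by omega, hp.2⟩
  · intro p hp _
    exact (Finset.mem_filter.1 hp).2.one_le

theorem p8 : ∀ᶠ L : ℕ in atTop,
    16 * (4 * QQ (GG L) (yy L) * ZZ L ^ (WW L * uu L)) ≤ YY L := by
  filter_upwards [ev5, eventually_ge_atTop (2 ^ 35)] with L h5 hL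
  have hL1 : 2 ^ 35 ≤ L := hL
  have hL4 : 1 ≤ L ^ 4 := Nat.one_le_pow _ _ (by omega)
  -- the exponent
  have hexp : 2 * del L + 2 * L + 6 ≤ 2 ^ (L - 2) := by
    refine le_trans ?_ h5
    have h1 : del L ≤ 2 ^ 33 * L ^ 4 := by
      unfold del eta
      have h2 : 1 ≤ L ^ 2 := Nat.one_le_pow _ _ (by omega)
      nlinarith
    have h3 : L ≤ L ^ 4 := Nat.le_self_pow (by norm_num) L
    have h4 : L ^ 5 = L * L ^ 4 := by ring
    rw [h4]
    calc 2 * del L + 2 * L + 6 ≤ 2 * (2 ^ 33 * L ^ 4) + 2 * L ^ 4 + 6 * L ^ 4 := by omega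
      _ ≤ 2 ^ 35 * L ^ 4 := by omega
      _ ≤ L * L ^ 4 := Nat.mul_le_mul_right _ hL1
  have hpow : 2 * 2 ^ (L - 2) = 2 ^ (L - 1) := by
    rw [← pow_succ']
    congr 1
    omega
  set e1 : ℕ := 2 ^ (L - 2) + (2 * del L + 2 * L + 4) with he1
  have he2 : e1 + 2 ≤ 2 ^ (L - 1) := by omega
  have hW : WW L * uu L ≤ 2 ^ (2 * del L + 2 * L + 4) := by
    unfold WW uu DD
    have h1 : 2 * 2 ^ L + 1 ≤ 4 * 2 ^ L := by
      have := Nat.one_le_two_pow (n := L)
      omega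
    calc 4 * (2 ^ del L) ^ 2 * ((2 * 2 ^ L + 1) * 2 ^ L)
        ≤ 4 * (2 ^ del L) ^ 2 * ((4 * 2 ^ L) * 2 ^ L) :=
          Nat.mul_le_mul_left _ (Nat.mul_le_mul_right _ h1)
      _ = 2 ^ (2 * del L + 2 * L + 4) := by ring
  have hZ : ZZ L ^ (WW L * uu L) ≤ 2 ^ 2 ^ e1 := by
    unfold ZZ
    rw [← pow_mul]
    refine Nat.pow_le_pow_right (by norm_num) ?_
    rw [he1, pow_add]
    exact Nat.mul_le_mul_left _ hW
  have hQ : QQ (GG L) (yy L) ≤ 2 ^ 2 ^ e1 := by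
    refine (QQ_le _ _).trans ?_
    have h1 : (4 : ℕ) = 2 ^ 2 := by norm_num
    rw [h1, ← pow_mul]
    refine Nat.pow_le_pow_right (by norm_num) ?_
    unfold yy
    rw [← pow_succ']
    refine Nat.pow_le_pow_right (by norm_num) ?_
    have h2 : eta L ≤ del L := by
      unfold del
      nlinarith [Nat.zero_le (eta L)]
    omega
  have h6 : (6 : ℕ) ≤ 2 ^ e1 := by
    have h1 : 3 ≤ e1 := by omega
    calc 6 ≤ 2 ^ 3 := by norm_num
      _ ≤ 2 ^ e1 := Nat.pow_le_pow_right (by norm_num) h1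
  calc 16 * (4 * QQ (GG L) (yy L) * ZZ L ^ (WW L * uu L))
      ≤ 16 * (4 * 2 ^ 2 ^ e1 * 2 ^ 2 ^ e1) :=
        Nat.mul_le_mul_left _ (Nat.mul_le_mul (Nat.mul_le_mul_left _ hQ) hZ)
    _ = 2 ^ (6 + 2 ^ e1 + 2 ^ e1) := by rw [pow_add, pow_add]; ring
    _ ≤ 2 ^ (2 ^ (e1 + 2)) := by
        refine Nat.pow_le_pow_right (by norm_num) ?_
        have h7 : 2 ^ (e1 + 2) = 4 * 2 ^ e1 := by ring
        rw [h7]
        omega
    _ ≤ YY L := by
        unfold YY
        exact Nat.pow_le_pow_right (by norm_num) (Nat.pow_le_pow_right (by norm_num) he2)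

end Pool.Agent.Helper9.PF
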