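import Pool.Agent.Helper9.PF.ParamDefs

/-!
PROJECT PF, module PF-13D. Numerical inequalities between the parameters, for large `L`.

Everything is a statement about exponents of 2. `eta = 8192 L^2`, `del = 64 (1 + eta) eta <= 2^40 L^4`.
* `p10`: let `K₀ <= 2^k`. `2 BB + 1 <= 2^(2L+3)` (`L >= 2`), `WW / 16 <= D^2 / 4`, `2 K₁ + 1 <= 2^(k y^2 + 2 L + 8)`; the exponent of the left side is at most `(2L+3) D^2/4 + 2 D (k y^2 + 2L + 8)` and the right side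
  has exponent `L D^2`; `8 (k y^2 + 2 L + 8) < (2 L - 3) D` for large `L` since `D >= 2^(128 eta)`, `y^2 = 2^(2 eta)`. (`DD L` is divisible by 4, so `WW L / 16 = DD L ^ 2 / 4` exactly.)
The eventual inequalities like `n^8 <= 2^(n-2)` can be obtained from `Filter.Eventually` facts (`tendsto_pow_const_div_const_pow_of_one_lt`, `Nat.cast` / `isLittleO_pow_const_const_pow_of_one_lt`) or by induction.
-/

set_option autoImplicit false

namespace Pool.Agent.Helper9.PF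

open Filter

theorem p10 (K₀ : ℕ) : ∀ᶠ L : ℕ in atTop,
    (2 * BB L + 1) ^ (WW L / 16) *
      ((2 * (K₀ ^ (yy L ^ 2) * (5 * BB L + 21)) + 1) ^ 2) ^ DD L < (2 ^ L) ^ (WW L / 4) := by
  filter_upwards [eventually_ge_atTop (K₀ + 2)] with L hL
  obtain ⟨e, he⟩ : ∃ e, e = eta L := ⟨_, rfl⟩
  have heL : L ≤ e := by
    rw [he, eta]
    nlinarith
  have he1 : 1 ≤ e := by omega
  have hdel : 3 * e + 4 ≤ del L := by
    rw [del, ← he]
    nlinarith
  obtain ⟨D', hD'⟩ : ∃ D', D' = 2 ^ (del L - 2) := ⟨_, rfl⟩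
  have hDD : DD L = 4 * D' := by
    rw [DD, hD']
    have h1 : del L = 2 + (del L - 2) := by omega
    conv_lhs => rw [h1, pow_add]
    norm_num
  have hD'pos : 0 < D' := by rw [hD']; positivity
  have hW16 : WW L / 16 = 4 * D' ^ 2 := by
    rw [WW, hDD]
    have h1 : 4 * (4 * D') ^ 2 = 16 * (4 * D' ^ 2) := by ring
    rw [h1]
    exact Nat.mul_div_cancel_left _ (by norm_num)
  have hW4 : WW L / 4 = 16 * D' ^ 2 := by
    rw [WW, hDD]
    have h1 : 4 * (4 * D') ^ 2 = 4 * (16 * D' ^ 2) := by ring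
    rw [h1]
    exact Nat.mul_div_cancel_left _ (by norm_num)
  have hyy : yy L ^ 2 = 2 ^ (2 * e) := by
    rw [yy, ← he, ← pow_mul, mul_comm]
  obtain ⟨Y, hY⟩ : ∃ Y, Y = yy L ^ 2 := ⟨_, rfl⟩
  obtain ⟨a, ha⟩ : ∃ a, a = 2 ^ L := ⟨_, rfl⟩
  have ha4 : 4 ≤ a := by
    rw [ha]
    calc 4 = 2 ^ 2 := by norm_num
      _ ≤ 2 ^ L := Nat.pow_le_pow_right (by norm_num) (by omega)
  have ha2 : 2 ^ (2 * L) = a ^ 2 := by rw [ha, ← pow_mul, mul_comm]
  have hBB : BB L = 2 * a ^ 2 + 2 * a := by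
    rw [BB, uu, ← ha]
    ring
  have h1 : 2 * BB L + 1 ≤ 2 ^ (2 * L + 3) := by
    rw [pow_add, ha2, hBB]
    nlinarith
  have h2 : 2 * (5 * BB L + 21) + 1 ≤ 2 ^ (2 * L + 8) := by
    rw [pow_add, ha2, hBB]
    nlinarith
  have hK : K₀ ≤ 2 ^ K₀ := Nat.lt_two_pow_self.le
  obtain ⟨N, hN⟩ : ∃ N, N = K₀ * Y + (2 * L + 8) := ⟨_, rfl⟩
  have h3 : 2 * (K₀ ^ (yy L ^ 2) * (5 * BB L + 21)) + 1 ≤ 2 ^ N := by
    rw [← hY, hN, pow_add, pow_mul]
    have h4 : K₀ ^ Y ≤ (2 ^ K₀) ^ Y := Nat.pow_le_pow_left hK Y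
    have h5 : 1 ≤ (2 ^ K₀) ^ Y := Nat.one_le_iff_ne_zero.2 (by positivity)
    calc 2 * (K₀ ^ Y * (5 * BB L + 21)) + 1
        ≤ 2 * ((2 ^ K₀) ^ Y * (5 * BB L + 21)) + (2 ^ K₀) ^ Y := by gcongr
      _ = (2 ^ K₀) ^ Y * (2 * (5 * BB L + 21) + 1) := by ring
      _ ≤ (2 ^ K₀) ^ Y * 2 ^ (2 * L + 8) := by gcongr
  have h6 : 2 * N < D' := by
    have h7 : 2 * L + 8 ≤ Y := by
      rw [hY, hyy]
      have h8 : 2 * L + 8 ≤ 2 ^ (2 * L) * 2 ^ 2 := by
        rw [ha2]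
        have h9 : L < a := by rw [ha]; exact Nat.lt_two_pow_self
        nlinarith
      refine h8.trans ?_
      rw [← pow_add]
      refine Nat.pow_le_pow_right (by norm_num) ?_
      have h9 : L + 1 ≤ e := by
        rw [he, eta]
        nlinarith
      omega
    have h8 : N ≤ (K₀ + 1) * Y := by
      rw [hN]
      nlinarith
    have h9 : K₀ + 1 ≤ 2 ^ e := by
      have : e < 2 ^ e := Nat.lt_two_pow_self
      omega
    calc 2 * N ≤ 2 * ((K₀ + 1) * Y) := by gcongr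
      _ ≤ 2 * (2 ^ e * 2 ^ (2 * e)) := by rw [hY, hyy]; gcongr
      _ = 2 ^ (3 * e + 1) := by rw [← pow_add]; ring
      _ < D' := by
        rw [hD']
        exact Nat.pow_lt_pow_right (by norm_num) (by omega)
  have h7 : (2 * L + 3) * (4 * D' ^ 2) + N * (2 * (4 * D')) < L * (16 * D' ^ 2) := by
    have h8 : 2 * N + 3 * D' < 2 * L * D' := by
      have : 4 * D' ≤ 2 * L * D' := by
        have : 4 ≤ 2 * L := by omega
        exact Nat.mul_le_mul_right D' this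
      omega
    have h9 : (2 * N + 3 * D') * (4 * D') < 2 * L * D' * (4 * D') :=
      Nat.mul_lt_mul_of_pos_right h8 (by omega)
    nlinarith
  rw [hW16, hW4, hDD]
  calc (2 * BB L + 1) ^ (4 * D' ^ 2) *
      ((2 * (K₀ ^ (yy L ^ 2) * (5 * BB L + 21)) + 1) ^ 2) ^ (4 * D')
      ≤ (2 ^ (2 * L + 3)) ^ (4 * D' ^ 2) * ((2 ^ N) ^ 2) ^ (4 * D') :=
        Nat.mul_le_mul (Nat.pow_le_pow_left h1 _)
          (Nat.pow_le_pow_left (Nat.pow_le_pow_left h3 _) _)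
    _ = 2 ^ ((2 * L + 3) * (4 * D' ^ 2) + N * (2 * (4 * D'))) := by
        rw [← pow_mul, ← pow_mul, ← pow_mul, ← pow_add]
    _ < 2 ^ (L * (16 * D' ^ 2)) := Nat.pow_lt_pow_right (by norm_num) h7
    _ = (2 ^ L) ^ (16 * D' ^ 2) := pow_mul _ _ _

end Pool.Agent.Helper9.PF
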