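import Pool.Agent.Helper9.PF.ParamsA
import Pool.Agent.Helper9.PF.ParamsB
import Pool.Agent.Helper9.PF.ParamsC
import Pool.Agent.Helper9.PF.ParamsD

/-!
PROJECT PF: the numerical inequalities `p1`, ..., `p10`. DONE.
-/
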