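import Mathlib

/-!
PROJECT PF (MP_175197_nt): sums over arbitrary infinite sets of primes of `1 / F_p` are irrational.
Definitions. DONE.
-/

set_option autoImplicit false

namespace Pool.Agent.Helper9.PF

open Finset

open Classical in
/-- The sum of `ε p` over the primes `p ∣ m` with `p ∈ A` and `y < p`. -/
noncomputable def ff (A : Set ℕ) (ε : ℕ → ℤ) (y m : ℕ) : ℤ :=
  ∑ p ∈ m.primeFactors with p ∈ A ∧ y < p, ε p

/-- The coefficients `θ(m) f(m)`. -/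
noncomputable def aa (A : Set ℕ) (ε θ : ℕ → ℤ) (y m : ℕ) : ℤ := θ m * ff A ε y m

/-- The weighted two-sided sum of the `|a|` around `M`. -/
noncomputable def bet (lam : ℝ) (a : ℕ → ℤ) (M : ℕ) : ℝ :=
  (∑' h : ℕ, |(a (M + 1 + h) : ℝ)| * lam⁻¹ ^ (h + 1)) +
    ∑ j ∈ range M, |(a (M - j) : ℝ)| * lam⁻¹ ^ j

/-- A bounded integral solution `w` of `w (M + 1) = lam w (M) + c a (M + 1)`. -/
structure Dyn (lam : ℝ) (a : ℕ → ℤ) (K : ℝ) where
  /-- the sequence -/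
  w : ℕ → ℤ × ℤ
  /-- one step -/
  T : ℤ × ℤ → ℤ → ℤ × ℤ
  /-- the real embedding -/
  R : ℤ × ℤ → ℝ
  /-- the constant -/
  c : ℝ
  c_ne : c ≠ 0
  step : ∀ M, w (M + 1) = T (w M) (a (M + 1))
  Rstep : ∀ M, R (w (M + 1)) = lam * R (w M) + c * (a (M + 1) : ℝ)
  Rbd : ∀ M, |R (w M)| ≤ |c| * bet lam a M
  bd1 : ∀ M, |((w M).1 : ℝ)| ≤ K * (1 + bet lam a M)
  bd2 : ∀ M, |((w M).2 : ℝ)| ≤ K * (1 + bet lam a M)

/-- The conditions on the sign factor `θ` (the character modulo 4, or the constant 1). -/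
structure Theta (θ : ℕ → ℤ) : Prop where
  per : ∀ m, θ (m + 4) = θ m
  mul : ∀ d m, θ (d * m) = θ d * θ m
  bd : ∀ m, |θ m| ≤ 1
  odd : ∀ d, Odd d → θ d ≠ 0

/-- The product of the primes in `(G, y]`. -/
def QQ (G y : ℕ) : ℕ := ∏ p ∈ (Ioc G y).filter Nat.Prime, p

/-- The place `i` is bad. -/
def IsBad (Q D G E W a i : ℕ) : Prop :=
  D < (a + i).gcd Q ∨ (∃ j, 1 ≤ j ∧ j ≤ G ∧ (a + i + j * (a + i).gcd Q).gcd Q = (a + i).gcd Q) ∨
    E + W < i + G * D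

open Classical in
/-- The bad places `i` in the window `(E, E + W]`. -/
noncomputable def Bad (Q D G E W a : ℕ) : Finset ℕ :=
  (Ioc E (E + W)).filter (fun i => IsBad Q D G E W a i)

/-- The least `i > E` with `d ∣ a + i`. -/
noncomputable def i0 (a E d : ℕ) : ℕ := sInf {i | E < i ∧ d ∣ a + i}

end Pool.Agent.Helper9.PF
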