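import Pool.Agent.Helper9.PF.Defs

/-!
PROJECT PF: the parameters as functions of `L`. DONE.
-/

set_option autoImplicit false

namespace Pool.Agent.Helper9.PF

/-- `log_2 y` -/
def eta (L : ℕ) : ℕ := 8192 * L ^ 2
/-- `G` -/
def GG (L : ℕ) : ℕ := 8 * L
/-- `y` -/
def yy (L : ℕ) : ℕ := 2 ^ eta L
/-- `log_2 D` -/
def del (L : ℕ) : ℕ := 64 * (1 + eta L) * eta L
/-- `D` -/
def DD (L : ℕ) : ℕ := 2 ^ del L
/-- `W` -/
def WW (L : ℕ) : ℕ := 4 * DD L ^ 2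
/-- `E` -/
def EE (L : ℕ) : ℕ := DD L * (2 ^ L + 2)
/-- `V` -/
def VV (L : ℕ) : ℕ := 2 * EE L + WW L
/-- number of design primes per place -/
def uu (L : ℕ) : ℕ := (2 * 2 ^ L + 1) * 2 ^ L
/-- `B` -/
def BB (L : ℕ) : ℕ := uu L + 2 ^ L
/-- `Y` -/
def YY (L : ℕ) : ℕ := 2 ^ (2 ^ (2 ^ (L - 1)))
/-- bound for the design primes -/
def ZZ (L : ℕ) : ℕ := 2 ^ (2 ^ (2 ^ (L - 2)))

end Pool.Agent.Helper9.PF
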