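import Pool.Agent.Helper9.PF.ParamDefs

/-!
PROJECT PF, module PF-13A. Numerical inequalities between the parameters, for large `L`.

Everything is a statement about exponents of 2. `eta = 8192 L^2`, `del = 64 (1 + eta) eta <= 2^40 L^4`.
* `p1`: `log y = eta log 2 >= 8192 * 0.69 L^2 >= 64 * 64 L^2` (`Real.log_two_gt_d9`). `GG L = 8 L <= 2 ^ (8192 L^2)` (`Nat.lt_two_pow_self`).
* `p2`: `log D = 64 (1 + eta) eta log 2 = 64 (1 + eta) log y` and `log y <= eta`.
* `p3`: `64 * 8 L * D <= 4 D^2` because `128 L <= D`.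
* `p5`: `(3/2)^8 > 25`, `BB <= 2^(2L+2)`: `2 (5 BB + 20) <= 40 * 4^L + 40 < 25^L` for `L >= 3`; `lam ^ (8 L) >= (3/2)^(8 L)` (`pow_le_pow_left₀`).
* `p9`: clear.
The eventual inequalities like `n^8 <= 2^(n-2)` can be obtained from `Filter.Eventually` facts (`tendsto_pow_const_div_const_pow_of_one_lt`, `Nat.cast` / `isLittleO_pow_const_const_pow_of_one_lt`) or by induction.
-/

set_option autoImplicit false

namespace Pool.Agent.Helper9.PF

open Filter

private theorem log_yy (L : ℕ) : Real.log (yy L) = eta L * Real.log 2 := by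
  unfold yy
  push_cast
  rw [Real.log_pow]

private theorem log_DD (L : ℕ) :
    Real.log (DD L) = 64 * (1 + (eta L : ℝ)) * (eta L * Real.log 2) := by
  unfold DD del
  push_cast
  rw [Real.log_pow]
  push_cast
  ring

private theorem le_eta {L : ℕ} (hL : 1 ≤ L) : 8192 * L ≤ eta L := by
  unfold eta
  have : L * 1 ≤ L * L := Nat.mul_le_mul_left L hL
  rw [sq]
  omega

private theorem le_del {L : ℕ} (hL : 1 ≤ L) : 128 * L ≤ del L := by
  unfold del
  have h := le_eta hL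
  have h1 : (64 * (1 + 1)) * L ≤ 64 * (1 + eta L) * eta L :=
    Nat.mul_le_mul (Nat.mul_le_mul_left 64 (by omega)) (by omega)
  omega

private theorem del_le {L : ℕ} (hL : 1 ≤ L) : del L ≤ 2 ^ 33 * L ^ 4 := by
  unfold del eta
  have h1 : 1 ≤ L ^ 2 := Nat.one_le_pow _ _ hL
  calc 64 * (1 + 8192 * L ^ 2) * (8192 * L ^ 2)
      ≤ 64 * (16384 * L ^ 2) * (8192 * L ^ 2) :=
        Nat.mul_le_mul_right _ (Nat.mul_le_mul_left _ (by omega))
    _ = 2 ^ 33 * L ^ 4 := by ring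

private theorem ev_aux : ∀ L : ℕ, 8 ≤ L → 35 + 4 * L ≤ 2 ^ (L - 1) := by
  intro L hL
  induction L, hL using Nat.le_induction with
  | base => norm_num
  | succ L hL ih =>
    have h1 : L + 1 - 1 = (L - 1) + 1 := by omega
    rw [h1, pow_succ]
    omega

theorem p1 : ∀ᶠ L : ℕ in atTop, 2 ≤ GG L ∧ GG L ≤ yy L ∧
    64 * (GG L : ℝ) ^ 2 ≤ Real.log (yy L) := by
  filter_upwards [eventually_ge_atTop 1] with L hL
  have h1 := le_eta hL
  refine ⟨by unfold GG; omega, ?_, ?_⟩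
  · unfold yy GG
    exact (Nat.lt_two_pow_self).le.trans (Nat.pow_le_pow_right (by norm_num) (by omega))
  · rw [log_yy]
    unfold GG eta
    push_cast
    have h2 := Real.log_two_gt_d9
    have h3 : (0 : ℝ) ≤ (L : ℝ) ^ 2 := by positivity
    nlinarith

theorem p2 : ∀ᶠ L : ℕ in atTop, 2 ≤ DD L ∧
    64 * (Real.log (yy L) * (1 + Real.log (yy L))) ≤ Real.log (DD L) := by
  filter_upwards [eventually_ge_atTop 1] with L hL
  have h1 := le_del hL
  constructor
  · unfold DD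
    calc 2 = 2 ^ 1 := (pow_one 2).symm
      _ ≤ 2 ^ del L := Nat.pow_le_pow_right (by norm_num) (by omega)
  · rw [log_DD, log_yy]
    have h2 : Real.log 2 ≤ 1 := by
      have := Real.log_two_lt_d9
      linarith
    have h3 : 0 ≤ Real.log 2 := Real.log_nonneg (by norm_num)
    have h4 : (0 : ℝ) ≤ eta L := Nat.cast_nonneg _
    have h5 : (eta L : ℝ) * Real.log 2 ≤ eta L := by
      calc (eta L : ℝ) * Real.log 2 ≤ eta L * 1 := mul_le_mul_of_nonneg_left h2 h4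
        _ = eta L := mul_one _
    have h6 : 0 ≤ (eta L : ℝ) * Real.log 2 := mul_nonneg h4 h3
    nlinarith

theorem p3 : ∀ᶠ L : ℕ in atTop, 64 * (GG L * DD L) ≤ WW L := by
  filter_upwards [eventually_ge_atTop 1] with L hL
  have h1 : 128 * L ≤ DD L := by
    unfold DD
    exact (Nat.lt_two_pow_self).le.trans (Nat.pow_le_pow_right (by norm_num) (le_del hL))
  unfold WW GG
  have h2 : 128 * L * DD L ≤ DD L * DD L := Nat.mul_le_mul_right _ h1
  calc 64 * (8 * L * DD L) = 4 * (128 * L * DD L) := by ring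
    _ ≤ 4 * (DD L * DD L) := Nat.mul_le_mul_left 4 h2
    _ = 4 * DD L ^ 2 := by ring

theorem p5 : ∀ᶠ L : ℕ in atTop, ∀ lam : ℝ, 3 / 2 ≤ lam →
    2 * (5 * (BB L : ℝ) + 20) < lam ^ GG L := by
  filter_upwards [eventually_ge_atTop 3] with L hL lam hlam
  have h1 : ∀ L : ℕ, 3 ≤ L → (80 : ℝ) * 4 ^ L < 25 ^ L := by
    intro L hL
    induction L, hL using Nat.le_induction with
    | base => norm_num
    | succ L hL ih =>
      rw [pow_succ, pow_succ]
      have h2 : (0 : ℝ) < 25 ^ L := by positivity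
      linarith
  have h3 : (25 : ℝ) ^ L ≤ lam ^ GG L := by
    unfold GG
    rw [pow_mul]
    refine pow_le_pow_left₀ (by norm_num) ?_ L
    refine le_trans ?_ (pow_le_pow_left₀ (by norm_num) hlam 8)
    norm_num
  have h4 : (BB L : ℝ) = 2 * 4 ^ L + 2 * 2 ^ L := by
    unfold BB uu
    push_cast
    have h5 : (4 : ℝ) ^ L = 2 ^ L * 2 ^ L := by
      rw [← mul_pow]
      norm_num
    rw [h5]
    ring
  have h6 : (2 : ℝ) ^ L ≤ 4 ^ L := pow_le_pow_left₀ (by norm_num) (by norm_num) L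
  have h7 : (1 : ℝ) ≤ 4 ^ L := one_le_pow₀ (by norm_num)
  have h8 := h1 L hL
  rw [h4]
  linarith

theorem p9 : ∀ᶠ L : ℕ in atTop, VV L ≤ YY L := by
  filter_upwards [eventually_ge_atTop 8] with L hL
  have hL1 : 1 ≤ L := by omega
  have h1 : 2 * del L + L + 4 ≤ 2 ^ (2 ^ (L - 1)) := by
    have h2 := del_le hL1
    have h3 : L ≤ L ^ 4 := Nat.le_self_pow (by norm_num) L
    have h4 : 1 ≤ L ^ 4 := Nat.one_le_pow _ _ hL1
    have h5 : 2 * del L + L + 4 ≤ 2 ^ 35 * L ^ 4 := by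
      have : (2 : ℕ) ^ 35 * L ^ 4 = 2 * (2 ^ 33 * L ^ 4) + 2 ^ 34 * L ^ 4 := by ring
      rw [this]
      have h6 : 5 * L ^ 4 ≤ 2 ^ 34 * L ^ 4 := Nat.mul_le_mul_right _ (by norm_num)
      omega
    have h7 : L ^ 4 ≤ 2 ^ (4 * L) := by
      rw [mul_comm 4 L, pow_mul]
      exact Nat.pow_le_pow_left (Nat.lt_two_pow_self).le 4
    calc 2 * del L + L + 4 ≤ 2 ^ 35 * L ^ 4 := h5
      _ ≤ 2 ^ 35 * 2 ^ (4 * L) := Nat.mul_le_mul_left _ h7
      _ = 2 ^ (35 + 4 * L) := (pow_add 2 35 (4 * L)).symm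
      _ ≤ 2 ^ (2 ^ (L - 1)) := Nat.pow_le_pow_right (by norm_num) (ev_aux L hL)
  have h2 : VV L ≤ 2 ^ (2 * del L + L + 4) := by
    unfold VV EE WW DD
    have h3 : 2 ≤ 2 ^ L := by
      calc 2 = 2 ^ 1 := (pow_one 2).symm
        _ ≤ 2 ^ L := Nat.pow_le_pow_right (by norm_num) hL1
    have h4 : 1 ≤ 2 ^ del L := Nat.one_le_two_pow
    have h5 : 2 ^ (2 * del L + L + 4) = 16 * (2 ^ del L * 2 ^ del L * 2 ^ L) := by
      rw [pow_add, pow_add, two_mul, pow_add]
      ring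
    rw [h5]
    have h6 : 2 ^ del L * (2 ^ L + 2) ≤ 2 ^ del L * (2 ^ del L * (2 * 2 ^ L)) := by
      refine Nat.mul_le_mul_left _ ?_
      calc 2 ^ L + 2 ≤ 1 * (2 * 2 ^ L) := by omega
        _ ≤ 2 ^ del L * (2 * 2 ^ L) := Nat.mul_le_mul_right _ h4
    have h7 : (2 ^ del L) ^ 2 ≤ 2 ^ del L * 2 ^ del L * 2 ^ L := by
      calc (2 ^ del L) ^ 2 = 2 ^ del L * 2 ^ del L * 1 := by ring
        _ ≤ 2 ^ del L * 2 ^ del L * 2 ^ L := Nat.mul_le_mul_left _ (by omega)
    have h8 : 2 ^ del L * (2 ^ del L * (2 * 2 ^ L)) = 2 * (2 ^ del L * 2 ^ del L * 2 ^ L) := by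
      ring
    omega
  refine h2.trans ?_
  unfold YY
  exact Nat.pow_le_pow_right (by norm_num) h1

end Pool.Agent.Helper9.PF
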