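import Pool.Agent.Helper9.PF.Basic

/-!
PROJECT PF, module PF-10. Uniqueness: the values of `f` in the window are determined by the values at the bad places and the starting values of the chains.

Proof. Write `f = ff A ε y`, `a' = aa A ε θ y`, `g i = gcd (a + i, Q)`. Strong induction on `(Q - g i) * (E + W + 1) + i`, for `i ∈ (E, E + W]` with `θ (a + i) ≠ 0`.
If `i` is bad use `hbad`. Otherwise let `d = g i ≤ D`; `d ∣ Q`, `d ∣ a + i`, `d ∣ N + i`, `d ∣ N' + i` (`N ≡ N' ≡ a` modulo `Q`), `M = (N + i)/d`, `M' = (N' + i)/d`.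
(0) For a place `i'` with `d ∣ a + i'`, `E < i' ≤ E + W`, for which `θ (a + i') ≠ 0 → f (N + i') = f (N' + i')`: `a' ((N + i')/d) = a' ((N' + i')/d)`. Indeed `θ ((N+i')/d)` is determined by
`θ (N + i') = θ d * θ ((N+i')/d)`, `θ d ≠ 0` (`d` is odd), `θ (N + i') = θ (a + i') = θ (N' + i')` (period 4, `N ≡ a` modulo 4), and `f ((N+i')/d) = f (N+i')` by `ff_mul`; if `θ (a + i') = 0` both are `0`.
(1) `dyn.w (M - 1) = dyn.w (M' - 1)`: start from `h0` (the place `(N + i0)/d - 1`), and go up with `dyn.step`: all the places `i' = i0, i0 + d, ..., i - d` have `g i'` a multiple of `d`, so the induction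
hypothesis applies to them (`g i' = d` and `i' < i`, or `g i' > d`).
(2) For `1 ≤ j ≤ G` the place `i + j d ≤ i + G D ≤ E + W` has `g (i + j d)` a multiple of `d` different from `d` (`i` not bad), so the induction hypothesis applies: `a' (M + j) = a' (M' + j)`.
(3) `dyn.R (dyn.w (M + k)) - dyn.R (dyn.w (M' + k)) = lam ^ k * c * (a' M - a' M')` for `k ≤ G` by `dyn.Rstep` (induction on `k`; for `k = 0` by (1)). For `k = G` the left side is at most `2 |c| R` in absolute value by
`dyn.Rbd` and `hR`, `hR'` (place `i + G d`), so `lam ^ G |a' M - a' M'| ≤ 2 R < lam ^ G`: the integers `a' M`, `a' M'` are equal. As `θ M = θ M' ≠ 0`, `f M = f M'`, i.e. `f (N + i) = f (N' + i)`.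
-/

set_option autoImplicit false

namespace Pool.Agent.Helper9.PF

open Finset

private theorem un_theta {θ : ℕ → ℤ} (hθ : Theta θ) {m n : ℕ} (h : m ≡ n [MOD 4]) : θ m = θ n := by
  have h1 : ∀ k m : ℕ, θ (m + 4 * k) = θ m := by
    intro k
    induction k with
    | zero => intro m; simp
    | succ k ih =>
      intro m
      rw [show m + 4 * (k + 1) = (m + 4 * k) + 4 by ring, hθ.per, ih]
  have h2 : ∀ m : ℕ, θ m = θ (m % 4) := by
    intro m
    have h3 : m = m % 4 + 4 * (m / 4) := (Nat.mod_add_div m 4).symm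
    rw [h3, h1]
    congr 1
    omega
  rw [h2 m, h2 n, h]

private theorem un_place {A : Set ℕ} {ε θ : ℕ → ℤ} {y : ℕ} (hθ : Theta θ) {Q a N N' d i : ℕ}
    (hQ : ∀ p, p.Prime → p ∣ Q → p ≤ y) (hQodd : Odd Q) (hd : d ∣ Q)
    (hN1 : 1 ≤ N) (hN1' : 1 ≤ N') (hN : N ≡ a [MOD 4 * Q]) (hN' : N' ≡ a [MOD 4 * Q])
    (hdi : d ∣ N + i) (hdi' : d ∣ N' + i)
    (hf : θ (a + i) ≠ 0 → ff A ε y (N + i) = ff A ε y (N' + i)) :
    θ ((N + i) / d) = θ ((N' + i) / d) ∧ (θ (a + i) ≠ 0 → θ ((N + i) / d) ≠ 0) ∧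
      ff A ε y ((N + i) / d) = ff A ε y (N + i) ∧ ff A ε y ((N' + i) / d) = ff A ε y (N' + i) ∧
      aa A ε θ y ((N + i) / d) = aa A ε θ y ((N' + i) / d) := by
  obtain ⟨M, hM⟩ := hdi
  obtain ⟨M', hM'⟩ := hdi'
  have hdodd : Odd d := Odd.of_dvd_nat hQodd hd
  have hd0 : 0 < d := hdodd.pos
  have e1 : (N + i) / d = M := by rw [hM, Nat.mul_div_cancel_left _ hd0]
  have e2 : (N' + i) / d = M' := by rw [hM', Nat.mul_div_cancel_left _ hd0]
  rw [e1, e2]
  have hM0 : M ≠ 0 := by
    rintro rfl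
    omega
  have hM0' : M' ≠ 0 := by
    rintro rfl
    omega
  have h4 : N ≡ a [MOD 4] := hN.of_dvd (Dvd.intro _ rfl)
  have h4' : N' ≡ a [MOD 4] := hN'.of_dvd (Dvd.intro _ rfl)
  have t1 : θ (N + i) = θ (a + i) := un_theta hθ (h4.add_right i)
  have t2 : θ (N' + i) = θ (a + i) := un_theta hθ (h4'.add_right i)
  rw [hM, hθ.mul] at t1
  rw [hM', hθ.mul] at t2
  have hθd : θ d ≠ 0 := hθ.odd d hdodd
  have hpd : ∀ p, p.Prime → p ∣ d → p ≤ y := fun p hp hpd => hQ p hp (hpd.trans hd)
  have f1 : ff A ε y M = ff A ε y (N + i) := by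
    rw [hM, ff_mul A ε y hpd hd0.ne' hM0]
  have f2 : ff A ε y M' = ff A ε y (N' + i) := by
    rw [hM', ff_mul A ε y hpd hd0.ne' hM0']
  have t3 : θ M = θ M' := mul_left_cancel₀ hθd (t1.trans t2.symm)
  refine ⟨t3, ?_, f1, f2, ?_⟩
  · intro h5 h6
    rw [h6, mul_zero] at t1
    exact h5 t1.symm
  · unfold aa
    by_cases h5 : θ (a + i) = 0
    · have h6 : θ M = 0 := by
        rw [h5] at t1
        rcases mul_eq_zero.1 t1 with h7 | h7
        · exact absurd h7 hθd
        · exact h7
      rw [← t3, h6, zero_mul, zero_mul]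
    · rw [← t3, f1, f2, hf h5]

private theorem un_mu {Q d g X i i' : ℕ} (hg : d ≤ g) (hgQ : g ≤ Q) (hi : i' ≤ X)
    (h : d < g ∨ i' < i) : (Q - g) * (X + 1) + i' < (Q - d) * (X + 1) + i := by
  rcases h with h | h
  · have h1 : (Q - g) * (X + 1) + (X + 1) ≤ (Q - d) * (X + 1) := by
      rw [← Nat.succ_mul]
      exact Nat.mul_le_mul_right _ (by omega)
    omega
  · have h1 : (Q - g) * (X + 1) ≤ (Q - d) * (X + 1) := Nat.mul_le_mul_right _ (by omega)
    omega

theorem unique {lam K : ℝ} (hlam : 3 / 2 ≤ lam) {A : Set ℕ} {ε θ : ℕ → ℤ} {y : ℕ}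
    (hθ : Theta θ) (dyn : Dyn lam (aa A ε θ y) K) {Q D G E W a : ℕ} {R : ℝ}
    (hQ : ∀ p, p.Prime → p ∣ Q → p ≤ y) (hQ0 : 0 < Q) (hQodd : Odd Q)
    (hG : 2 * R < lam ^ G) {N N' : ℕ} (hN1 : 1 ≤ N) (hN1' : 1 ≤ N')
    (hN : N ≡ a [MOD 4 * Q]) (hN' : N' ≡ a [MOD 4 * Q])
    (hR : ∀ i d, E < i → i ≤ E + W → 0 < d → d ∣ Q → d ≤ D → d ∣ N + i →
      bet lam (aa A ε θ y) ((N + i) / d) ≤ R)
    (hR' : ∀ i d, E < i → i ≤ E + W → 0 < d → d ∣ Q → d ≤ D → d ∣ N' + i →
      bet lam (aa A ε θ y) ((N' + i) / d) ≤ R)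
    (h0 : ∀ d, 0 < d → d ∣ Q → d ≤ D →
      dyn.w ((N + i0 a E d) / d - 1) = dyn.w ((N' + i0 a E d) / d - 1))
    (hbad : ∀ i ∈ Bad Q D G E W a, θ (a + i) ≠ 0 → ff A ε y (N + i) = ff A ε y (N' + i)) :
    ∀ i, E < i → i ≤ E + W → θ (a + i) ≠ 0 → ff A ε y (N + i) = ff A ε y (N' + i) := by
  have hdiv : ∀ d i, d ∣ Q → (d ∣ N + i ↔ d ∣ a + i) := by
    intro d i hd
    have h1 : N + i ≡ a + i [MOD d] := (hN.of_dvd (hd.trans (Dvd.intro_left _ rfl))).add_right i
    exact h1.dvd_iff (dvd_refl d)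
  have hdiv' : ∀ d i, d ∣ Q → (d ∣ N' + i ↔ d ∣ a + i) := by
    intro d i hd
    have h1 : N' + i ≡ a + i [MOD d] := (hN'.of_dvd (hd.trans (Dvd.intro_left _ rfl))).add_right i
    exact h1.dvd_iff (dvd_refl d)
  have main : ∀ n i, (Q - (a + i).gcd Q) * (E + W + 1) + i = n → E < i → i ≤ E + W → θ (a + i) ≠ 0 →
      ff A ε y (N + i) = ff A ε y (N' + i) := by
    intro n
    induction n using Nat.strong_induction_on with
    | _ n ih =>
      intro i hn hi1 hi2 hθi
      by_cases hib : i ∈ Bad Q D G E W a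
      · exact hbad i hib hθi
      have hgood : ¬ IsBad Q D G E W a i := by
        intro h1
        apply hib
        unfold Bad
        simp only [Finset.mem_filter, Finset.mem_Ioc]
        exact ⟨⟨hi1, hi2⟩, h1⟩
      unfold IsBad at hgood
      push Not at hgood
      obtain ⟨hgD, hgj, hgW⟩ := hgood
      set d := (a + i).gcd Q with hd
      have hd0 : 0 < d := Nat.gcd_pos_of_pos_right _ hQ0
      have hdQ : d ∣ Q := Nat.gcd_dvd_right _ _
      have hda : d ∣ a + i := Nat.gcd_dvd_left _ _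
      -- the places which precede
      have hprec : ∀ i', E < i' → i' ≤ E + W → d ∣ a + i' → (d < (a + i').gcd Q ∨ i' < i) →
          θ (a + i') ≠ 0 → ff A ε y (N + i') = ff A ε y (N' + i') := by
        intro i' h1 h2 h3 h4 h5
        have h6 : d ∣ (a + i').gcd Q := Nat.dvd_gcd h3 hdQ
        have h7 : d ≤ (a + i').gcd Q := Nat.le_of_dvd (Nat.gcd_pos_of_pos_right _ hQ0) h6
        have h8 : (a + i').gcd Q ≤ Q := Nat.le_of_dvd hQ0 (Nat.gcd_dvd_right _ _)
        exact ih _ (hn ▸ un_mu h7 h8 h2 h4) i' rfl h1 h2 h5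
      have hpl : ∀ i', E < i' → i' ≤ E + W → d ∣ a + i' → (d < (a + i').gcd Q ∨ i' < i) →
          aa A ε θ y ((N + i') / d) = aa A ε θ y ((N' + i') / d) := by
        intro i' h1 h2 h3 h4
        exact (un_place hθ hQ hQodd hdQ hN1 hN1' hN hN' ((hdiv d i' hdQ).2 h3) ((hdiv' d i' hdQ).2 h3)
          (hprec i' h1 h2 h3 h4)).2.2.2.2
      -- (1) the chain before `i`
      have hi0a := i0_gt a E hd0
      have hi0d := i0_dvd a E hd0
      have hi0i := i0_min a E hi1 hda
      have hdivN : ∀ i', d ∣ a + i' → 1 ≤ (N + i') / d := by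
        intro i' h1
        rw [Nat.one_le_div_iff hd0]
        exact Nat.le_of_dvd (by omega) ((hdiv d i' hdQ).2 h1)
      have hdivN' : ∀ i', d ∣ a + i' → 1 ≤ (N' + i') / d := by
        intro i' h1
        rw [Nat.one_le_div_iff hd0]
        exact Nat.le_of_dvd (by omega) ((hdiv' d i' hdQ).2 h1)
      have hshift : ∀ X i' k : ℕ, (X + (i' + k * d)) / d = (X + i') / d + k := by
        intro X i' k
        rw [← add_assoc, Nat.add_mul_div_right _ _ hd0]
      have hchain : ∀ t : ℕ, i0 a E d + t * d ≤ i →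
          dyn.w ((N + (i0 a E d + t * d)) / d - 1) = dyn.w ((N' + (i0 a E d + t * d)) / d - 1) := by
        intro t
        induction t with
        | zero =>
          intro _
          rw [zero_mul, add_zero]
          exact h0 d hd0 hdQ hgD
        | succ t iht =>
          intro ht
          have e1 : i0 a E d + (t + 1) * d = (i0 a E d + t * d) + 1 * d := by ring
          have hlt : i0 a E d + t * d < i := by
            rw [e1] at ht
            omega
          have h1 := iht hlt.le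
          have hdt : d ∣ a + (i0 a E d + t * d) := by
            rw [← add_assoc]
            exact dvd_add hi0d (Dvd.intro_left _ rfl)
          have h2 := hpl (i0 a E d + t * d) (by omega) (by omega) hdt (Or.inr hlt)
          rw [e1, hshift N (i0 a E d + t * d) 1, hshift N' (i0 a E d + t * d) 1, Nat.add_sub_cancel, Nat.add_sub_cancel]
          have h3 := hdivN _ hdt
          have h4 := hdivN' _ hdt
          have h5 := dyn.step ((N + (i0 a E d + t * d)) / d - 1)
          have h6 := dyn.step ((N' + (i0 a E d + t * d)) / d - 1)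
          rw [Nat.sub_add_cancel h3] at h5
          rw [Nat.sub_add_cancel h4] at h6
          rw [h5, h6, h1, h2]
      obtain ⟨t, ht⟩ : ∃ t, i = i0 a E d + t * d := by
        have h1 : d ∣ (a + i) - (a + i0 a E d) := Nat.dvd_sub hda hi0d
        obtain ⟨t, ht⟩ := h1
        refine ⟨t, ?_⟩
        rw [mul_comm t d, ← ht]
        omega
      have hw0 : dyn.w ((N + i) / d - 1) = dyn.w ((N' + i) / d - 1) := by
        have h1 := hchain t ht.ge
        rw [← ht] at h1
        exact h1
      have hpl0 := un_place (A := A) (ε := ε) (i := i) hθ hQ hQodd hdQ hN1 hN1' hN hN' ((hdiv d i hdQ).2 hda)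
        ((hdiv' d i hdQ).2 hda)
      set M := (N + i) / d with hM
      set M' := (N' + i) / d with hM'
      have hM1 : 1 ≤ M := hdivN i hda
      have hM1' : 1 ≤ M' := hdivN' i hda
      have hGd : i + G * d ≤ E + W := le_trans (Nat.add_le_add_left (Nat.mul_le_mul_left G hgD) i) hgW
      have hdiff : ∀ k : ℕ, k ≤ G → dyn.R (dyn.w (M + k)) - dyn.R (dyn.w (M' + k)) =
          lam ^ k * (dyn.c * ((aa A ε θ y M : ℝ) - (aa A ε θ y M' : ℝ))) := by
        intro k
        induction k with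
        | zero =>
          intro _
          have h5 := dyn.Rstep (M - 1)
          have h6 := dyn.Rstep (M' - 1)
          rw [Nat.sub_add_cancel hM1] at h5
          rw [Nat.sub_add_cancel hM1'] at h6
          rw [add_zero, add_zero, h5, h6, hw0]
          ring
        | succ k ihk =>
          intro hk
          have h1 := ihk (by omega)
          have h5 := dyn.Rstep (M + k)
          have h6 := dyn.Rstep (M' + k)
          have hkG : (k + 1) * d ≤ G * d := Nat.mul_le_mul_right d hk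
          have hdk : d ∣ a + (i + (k + 1) * d) := by
            rw [← add_assoc]
            exact dvd_add hda (Dvd.intro_left _ rfl)
          have hgne : (a + (i + (k + 1) * d)).gcd Q ≠ d := by
            have h7 := hgj (k + 1) (by omega) hk
            rw [← add_assoc]
            exact h7
          have hglt : d < (a + (i + (k + 1) * d)).gcd Q := by
            have h8 : d ≤ (a + (i + (k + 1) * d)).gcd Q :=
              Nat.le_of_dvd (Nat.gcd_pos_of_pos_right _ hQ0) (Nat.dvd_gcd hdk hdQ)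
            omega
          have h2 := hpl (i + (k + 1) * d) (by omega) (by omega) hdk (Or.inl hglt)
          rw [hshift, hshift] at h2
          have h3 : M + (k + 1) = M + k + 1 := by ring
          have h4 : M' + (k + 1) = M' + k + 1 := by ring
          rw [← hM, ← hM', h3, h4] at h2
          rw [h3, h4, h5, h6, h2]
          have h9 : lam * dyn.R (dyn.w (M + k)) + dyn.c * (aa A ε θ y (M' + k + 1) : ℝ) -
              (lam * dyn.R (dyn.w (M' + k)) + dyn.c * (aa A ε θ y (M' + k + 1) : ℝ)) =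
              lam * (dyn.R (dyn.w (M + k)) - dyn.R (dyn.w (M' + k))) := by ring
          rw [h9, h1]
          ring
      have hG1 := hdiff G le_rfl
      have hb1 : bet lam (aa A ε θ y) (M + G) ≤ R := by
        have h1 := hR (i + G * d) d (by omega) hGd hd0 hdQ hgD
          ((hdiv d _ hdQ).2 (by rw [← add_assoc]; exact dvd_add hda (Dvd.intro_left _ rfl)))
        rw [hshift, ← hM] at h1
        exact h1
      have hb2 : bet lam (aa A ε θ y) (M' + G) ≤ R := by
        have h1 := hR' (i + G * d) d (by omega) hGd hd0 hdQ hgD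
          ((hdiv' d _ hdQ).2 (by rw [← add_assoc]; exact dvd_add hda (Dvd.intro_left _ rfl)))
        rw [hshift, ← hM'] at h1
        exact h1
      have hc0 : 0 < |dyn.c| := abs_pos.2 dyn.c_ne
      have haa : aa A ε θ y M = aa A ε θ y M' := by
        by_contra hne
        have h1 : (1 : ℝ) ≤ |(aa A ε θ y M : ℝ) - (aa A ε θ y M' : ℝ)| := by
          have h2 : 1 ≤ |aa A ε θ y M - aa A ε θ y M'| := Int.one_le_abs (sub_ne_zero.2 hne)
          exact_mod_cast h2
        have hlG : 0 < lam ^ G := by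
          apply pow_pos
          linarith
        have h3 : |dyn.R (dyn.w (M + G)) - dyn.R (dyn.w (M' + G))| ≤ |dyn.c| * R + |dyn.c| * R := by
          refine (abs_sub _ _).trans ?_
          exact add_le_add ((dyn.Rbd _).trans (mul_le_mul_of_nonneg_left hb1 hc0.le))
            ((dyn.Rbd _).trans (mul_le_mul_of_nonneg_left hb2 hc0.le))
        rw [hG1, abs_mul, abs_mul, abs_of_pos hlG] at h3
        have h4 : |dyn.c| * lam ^ G ≤ |dyn.c| * (2 * R) := by
          calc |dyn.c| * lam ^ G = lam ^ G * (|dyn.c| * 1) := by ring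
            _ ≤ lam ^ G * (|dyn.c| * |(aa A ε θ y M : ℝ) - (aa A ε θ y M' : ℝ)|) :=
                mul_le_mul_of_nonneg_left (mul_le_mul_of_nonneg_left h1 hc0.le) hlG.le
            _ ≤ |dyn.c| * R + |dyn.c| * R := h3
            _ = |dyn.c| * (2 * R) := by ring
        have h5 := le_of_mul_le_mul_left h4 hc0
        linarith
      -- compare the values of `f`
      have hpl1 : θ M = θ M' ∧ θ M ≠ 0 ∧ ff A ε y M = ff A ε y (N + i) ∧ ff A ε y M' = ff A ε y (N' + i) := by
        obtain ⟨N1d, hN1d⟩ := (hdiv d i hdQ).2 hda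
        obtain ⟨N2d, hN2d⟩ := (hdiv' d i hdQ).2 hda
        have hdodd : Odd d := Odd.of_dvd_nat hQodd hdQ
        have e1 : M = N1d := by rw [hM, hN1d, Nat.mul_div_cancel_left _ hd0]
        have e2 : M' = N2d := by rw [hM', hN2d, Nat.mul_div_cancel_left _ hd0]
        have h4 : N ≡ a [MOD 4] := hN.of_dvd (Dvd.intro _ rfl)
        have h4' : N' ≡ a [MOD 4] := hN'.of_dvd (Dvd.intro _ rfl)
        have t1 : θ (N + i) = θ (a + i) := un_theta hθ (h4.add_right i)
        have t2 : θ (N' + i) = θ (a + i) := un_theta hθ (h4'.add_right i)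
        rw [hN1d, hθ.mul, ← e1] at t1
        rw [hN2d, hθ.mul, ← e2] at t2
        have hθd : θ d ≠ 0 := hθ.odd d hdodd
        have hpd : ∀ p, p.Prime → p ∣ d → p ≤ y := fun p hp hpd => hQ p hp (hpd.trans hdQ)
        refine ⟨mul_left_cancel₀ hθd (t1.trans t2.symm), ?_, ?_, ?_⟩
        · intro h6
          rw [h6, mul_zero] at t1
          exact hθi t1.symm
        · rw [hN1d, ← e1, ff_mul A ε y hpd hd0.ne' (by omega)]
        · rw [hN2d, ← e2, ff_mul A ε y hpd hd0.ne' (by omega)]
      obtain ⟨u1, u2, u3, u4⟩ := hpl1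
      unfold aa at haa
      rw [← u1] at haa
      have u5 := mul_left_cancel₀ u2 haa
      rw [← u3, ← u4, u5]
  exact fun i h1 h2 h3 => main _ i rfl h1 h2 h3

end Pool.Agent.Helper9.PF
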